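import Pool.Agent.Run7.h236.Scc.B9

set_option autoImplicit false

/-! # Cycle covers of closed cubic graphs -/

namespace Run7.h236.Scc

open Sum

section cover

variable {W : Type} [Fintype W] [DecidableEq W] {G : SimpleGraph W} {k : ℕ}
  {C : Fin k → Finset (Sym2 W)} {t : Fin 0 → W} {M : Fin 0 → Finset (Fin k)}

/-- the members through an edge -/
def Lc (C : Fin k → Finset (Sym2 W)) (x y : W) : Finset (Fin k) :=
  Finset.univ.filter fun i => s(x, y) ∈ C i

theorem mem_Lc {C : Fin k → Finset (Sym2 W)} {x y : W} {i : Fin k} :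
    i ∈ Lc C x y ↔ s(x, y) ∈ C i := by
  simp [Lc]

theorem cnt_Lc (hsub : ∀ i, ∀ e ∈ C i, e ∈ G.edgeSet) (x : W) (i : Fin k) :
    cnt G.Adj t (Lc C) M x i = ((C i).filter (fun e => x ∈ e)).card := by
  unfold cnt
  rw [card_none (fun p => t p = x ∧ i ∈ M p) (fun p => p.elim0), add_zero,
    ← Fintype.card_coe, ← Nat.card_eq_fintype_card]
  refine Nat.card_congr (Equiv.ofBijective
    (fun y => ⟨s(x, y.1), Finset.mem_filter.mpr ⟨mem_Lc.mp y.2.2, Sym2.mem_mk_left _ _⟩⟩) ⟨?_, ?_⟩)
  · rintro ⟨y, hy⟩ ⟨z, hz⟩ h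
    simp only [Subtype.mk.injEq] at h
    exact Subtype.ext (Sym2.congr_right.mp h)
  · rintro ⟨e, he⟩
    rw [Finset.mem_filter] at he
    obtain ⟨he1, he2⟩ := he
    obtain ⟨y, rfl⟩ := Sym2.mem_iff_exists.mp he2
    exact ⟨⟨y, (SimpleGraph.mem_edgeSet G).mp (hsub i _ he1), mem_Lc.mpr he1⟩, rfl⟩

theorem cov_Lc (hsub : ∀ i, ∀ e ∈ C i, e ∈ G.edgeSet)
    (heven : ∀ i, ∀ v : W, Even ((C i).filter (fun e => v ∈ e)).card)
    (hcov : ∀ e ∈ G.edgeSet, ∃ i, e ∈ C i) : Cov G.Adj t (Lc C) M where
  symm := by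
    intro x y _
    ext i
    rw [mem_Lc, mem_Lc, Sym2.eq_swap]
  ne := by
    intro x y h
    obtain ⟨i, hi⟩ := hcov s(x, y) ((SimpleGraph.mem_edgeSet G).mpr h)
    exact ⟨i, mem_Lc.mpr hi⟩
  neM := fun p => p.elim0
  even := by
    intro v i
    rw [cnt_Lc hsub v i]
    exact heven i v

theorem handshake (hsub : ∀ i, ∀ e ∈ C i, e ∈ G.edgeSet) (i : Fin k) :
    ∑ x : W, ((C i).filter (fun e => x ∈ e)).card = 2 * (C i).card := by
  have h1 : ∀ x : W, ((C i).filter (fun e => x ∈ e)).card =
      ∑ e ∈ C i, if x ∈ e then 1 else 0 := fun x => Finset.card_filter _ _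
  rw [Finset.sum_congr rfl fun x _ => h1 x, Finset.sum_comm]
  have h2 : ∀ e ∈ C i, ∑ x : W, (if x ∈ e then 1 else 0) = 2 := by
    intro e he
    have hne := hsub i e he
    rw [← Finset.card_filter]
    induction e with
    | _ a b =>
      have hab : a ≠ b := ((SimpleGraph.mem_edgeSet G).mp hne).ne
      have : (Finset.univ.filter fun x : W => x ∈ s(a, b)) = {a, b} := by
        ext x
        simp
      rw [this, Finset.card_pair hab]
  rw [Finset.sum_congr rfl h2, Finset.sum_const, smul_eq_mul, mul_comm]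

theorem vertex_sum (hsub : ∀ i, ∀ e ∈ C i, e ∈ G.edgeSet)
    (heven : ∀ i, ∀ v : W, Even ((C i).filter (fun e => v ∈ e)).card)
    (hcov : ∀ e ∈ G.edgeSet, ∃ i, e ∈ C i) (hdeg : ∀ v, Nat.card {w // G.Adj v w} = 3) (x : W)
    [Decidable (Ex G.Adj t (Lc C) M x)] :
    4 + 2 * (if ¬ Ex G.Adj t (Lc C) M x then 1 else 0) ≤
      ∑ i : Fin k, ((C i).filter (fun e => x ∈ e)).card := by
  classical
  obtain ⟨f, hf⟩ : ∃ f : Fin k → ℕ, ∀ i, f i = ((C i).filter (fun e => x ∈ e)).card :=
    ⟨_, fun _ => rfl⟩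
  suffices hgoal : 4 + 2 * (if ¬ Ex G.Adj t (Lc C) M x then 1 else 0) ≤ ∑ i, f i by
    simpa only [hf] using hgoal
  have hev : ∀ i, Even (f i) := fun i => by rw [hf]; exact heven i x
  have hsumeven : Even (∑ i, f i) := Finset.even_sum _ fun i _ => hev i
  -- at least three incidences
  have h3 : 3 ≤ ∑ i, f i := by
    choose g hg using fun y : {w // G.Adj x w} =>
      hcov s(x, y.1) ((SimpleGraph.mem_edgeSet G).mpr y.2)
    have h4 : Nat.card {w // G.Adj x w} ≤ Nat.card (Σ i : Fin k, ((C i).filter (fun e => x ∈ e))) := by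
      refine Nat.card_le_card_of_injective (fun y => ⟨g y, ⟨s(x, y.1),
        Finset.mem_filter.mpr ⟨hg y, Sym2.mem_mk_left _ _⟩⟩⟩) ?_
      intro y z h
      have h5 : s(x, y.1) = s(x, z.1) := congrArg (fun p : (Σ i : Fin k,
        ((C i).filter (fun e => x ∈ e))) => (p.2.1 : Sym2 W)) h
      exact Subtype.ext (Sym2.congr_right.mp h5)
    rw [hdeg x, Nat.card_sigma] at h4
    refine h4.trans (le_of_eq (Finset.sum_congr rfl fun i _ => ?_))
    rw [Nat.card_eq_fintype_card, Fintype.card_coe, hf]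
  set T : Finset (Fin k) := Finset.univ.filter fun i => f i ≠ 0 with hT
  have h2T : 2 * T.card ≤ ∑ i, f i := by
    rw [mul_comm, ← smul_eq_mul, ← Finset.sum_const]
    refine (Finset.sum_le_sum fun i hi => ?_).trans
      (Finset.sum_le_sum_of_subset (Finset.subset_univ T))
    rw [hT, Finset.mem_filter] at hi
    obtain ⟨r, hr⟩ := hev i
    have := hi.2
    omega
  by_cases hE : Ex G.Adj t (Lc C) M x
  · rw [if_neg (not_not.mpr hE)]
    obtain ⟨r, hr⟩ := hsumeven
    omega
  · rw [if_pos hE]
    have hT3 : 3 ≤ T.card := by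
      by_contra hlt
      apply hE
      have hT2 : T.card ≤ 2 := by omega
      -- a nonempty set with at most two elements
      have hpos : ∃ a, a ∈ T := by
        by_contra hc
        push Not at hc
        have : ∑ i, f i = 0 := Finset.sum_eq_zero fun i _ => by
          by_contra h
          exact hc i (by rw [hT, Finset.mem_filter]; exact ⟨Finset.mem_univ _, h⟩)
        omega
      obtain ⟨a, ha⟩ := hpos
      have hab : ∃ b, ∀ i ∈ T, i = a ∨ i = b := by
        by_cases h : ∃ b ∈ T, b ≠ a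
        · obtain ⟨b, hb, hba⟩ := h
          refine ⟨b, fun i hi => ?_⟩
          by_contra hc
          push Not at hc
          have : ({a, b, i} : Finset (Fin k)) ⊆ T := by
            intro z hz
            simp only [Finset.mem_insert, Finset.mem_singleton] at hz
            rcases hz with rfl | rfl | rfl
            · exact ha
            · exact hb
            · exact hi
          have h5 := Finset.card_le_card this
          rw [Finset.card_insert_of_notMem, Finset.card_pair hc.2.symm] at h5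
          · omega
          · simp only [Finset.mem_insert, Finset.mem_singleton, not_or]
            exact ⟨hba.symm, hc.1.symm⟩
        · push Not at h
          exact ⟨a, fun i hi => Or.inl (h i hi)⟩
      obtain ⟨b, hb⟩ := hab
      refine ⟨a, b, fun y hy i hi => hb i ?_, fun p => p.elim0⟩
      rw [hT, Finset.mem_filter]
      refine ⟨Finset.mem_univ _, ?_⟩
      rw [hf, Finset.card_ne_zero]
      exact ⟨s(x, y), Finset.mem_filter.mpr ⟨mem_Lc.mp hi, Sym2.mem_mk_left _ _⟩⟩
    omega

/-- the length of a cover by even subgraphs -/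
theorem cover_len (hsub : ∀ i, ∀ e ∈ C i, e ∈ G.edgeSet)
    (heven : ∀ i, ∀ v : W, Even ((C i).filter (fun e => v ∈ e)).card)
    (hcov : ∀ e ∈ G.edgeSet, ∃ i, e ∈ C i) (hdeg : ∀ v, Nat.card {w // G.Adj v w} = 3) :
    2 * Fintype.card W + Nat.card {x // ¬ Ex G.Adj t (Lc C) M x} ≤ ∑ i, (C i).card := by
  classical
  have h1 : ∑ x : W, (4 + 2 * (if ¬ Ex G.Adj t (Lc C) M x then 1 else 0)) ≤
      ∑ x : W, ∑ i : Fin k, ((C i).filter (fun e => x ∈ e)).card :=
    Finset.sum_le_sum fun x _ => vertex_sum hsub heven hcov hdeg x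
  rw [Finset.sum_comm, Finset.sum_congr rfl fun i _ => handshake hsub i, ← Finset.mul_sum,
    Finset.sum_add_distrib, ← Finset.mul_sum, ← Finset.card_filter, Finset.sum_const,
    Finset.card_univ, smul_eq_mul] at h1
  have h2 : Nat.card {x // ¬ Ex G.Adj t (Lc C) M x} =
      (Finset.univ.filter fun x => ¬ Ex G.Adj t (Lc C) M x).card := by
    rw [Nat.card_eq_fintype_card, Fintype.card_subtype]
  rw [h2]
  omega

end cover

/-- a 3-edge-colouring gives an exact labelling -/
theorem no_colouring {W : Type} [Finite W] {G : SimpleGraph W}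
    (hdeg : ∀ v, Nat.card {w // G.Adj v w} = 3) {n : ℕ} (hn : 1 ≤ n) {t : Fin 0 → W}
    (h : ∀ (L : W → W → Finset (Fin 2)) (M : Fin 0 → Finset (Fin 2)), Cov G.Adj t L M →
      n ≤ Nat.card {v // ¬ Ex G.Adj t L M v}) : ¬ G.lineGraph.Colorable 3 := by
  classical
  rintro ⟨c⟩
  let lab : Fin 3 → Finset (Fin 2) := ![{0, 1}, {0}, {1}]
  let L : W → W → Finset (Fin 2) := fun x y =>
    if h : G.Adj x y then lab (c ⟨s(x, y), (SimpleGraph.mem_edgeSet G).mpr h⟩) else ∅
  have hL : ∀ x y (h : G.Adj x y), L x y =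
      lab (c ⟨s(x, y), (SimpleGraph.mem_edgeSet G).mpr h⟩) := fun x y h => dif_pos h
  have hex : ∀ v, Ex G.Adj t L (fun p => p.elim0) v := by
    intro v
    refine ⟨0, 1, fun y _ i _ => ?_, fun p => p.elim0⟩
    fin_cases i
    · exact Or.inl rfl
    · exact Or.inr rfl
  have hc : Cov G.Adj t L (fun p => p.elim0) := by
    refine ⟨?_, ?_, fun p => p.elim0, ?_⟩
    · intro x y h
      rw [hL x y h, hL y x h.symm]
      congr 3
      exact Sym2.eq_swap
    · intro x y h
      rw [hL x y h]
      have : ∀ a, (lab a).Nonempty := by decide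
      exact this _
    · intro v i
      unfold cnt
      rw [card_none (fun p => t p = v ∧ i ∈ (fun p : Fin 0 => (p.elim0 : Finset (Fin 2))) p)
        (fun p => p.elim0), add_zero]
      -- the colours at `v`
      let g : {y // G.Adj v y} → Fin 3 := fun y =>
        c ⟨s(v, y.1), (SimpleGraph.mem_edgeSet G).mpr y.2⟩
      have hg : Function.Injective g := by
        intro y z hyz
        by_contra hne
        have hadj : G.lineGraph.Adj ⟨s(v, y.1), (SimpleGraph.mem_edgeSet G).mpr y.2⟩
            ⟨s(v, z.1), (SimpleGraph.mem_edgeSet G).mpr z.2⟩ := by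
          rw [SimpleGraph.lineGraph_adj_iff_exists]
          refine ⟨?_, v, by simp, by simp⟩
          intro h
          exact hne (Subtype.ext (Sym2.congr_right.mp (congrArg Subtype.val h)))
        exact c.valid hadj hyz
      have : Fintype {y // G.Adj v y} := Fintype.ofFinite _
      have hb : Function.Bijective g := by
        rw [Fintype.bijective_iff_injective_and_card]
        refine ⟨hg, ?_⟩
        rw [← Nat.card_eq_fintype_card, hdeg v, Fintype.card_fin]
      have h1 : Nat.card {y // G.Adj v y ∧ i ∈ L v y} = Nat.card {a : Fin 3 // i ∈ lab a} := by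
        refine Nat.card_congr (Equiv.ofBijective (fun y => ⟨g ⟨y.1, y.2.1⟩, by
          have := y.2.2
          rw [hL _ _ y.2.1] at this
          exact this⟩) ⟨?_, ?_⟩)
        · rintro ⟨y, hy⟩ ⟨z, hz⟩ he
          simp only [Subtype.mk.injEq] at he
          have := hg he
          simp only [Subtype.mk.injEq] at this
          exact Subtype.ext this
        · rintro ⟨a, ha⟩
          obtain ⟨⟨y, hy⟩, rfl⟩ := hb.surjective a
          exact ⟨⟨y, hy, by rw [hL _ _ hy]; exact ha⟩, rfl⟩
      rw [h1, Nat.card_eq_fintype_card, Fintype.card_subtype]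
      have key : ∀ i : Fin 2, Even ((Finset.univ.filter fun a =>
        i ∈ (![{0, 1}, {0}, {1}] : Fin 3 → Finset (Fin 2)) a)).card := by decide
      exact key i
  have h1 := h L (fun p => p.elim0) hc
  have h2 : Nat.card {v // ¬ Ex G.Adj t L (fun p => p.elim0) v} = 0 :=
    card_none _ fun v => not_not.mpr (hex v)
  omega

/-- a finite graph with all degrees three is not a forest -/
theorem not_acyclic {W : Type} [Fintype W] [Nonempty W] {G : SimpleGraph W} [DecidableRel G.Adj]
    (hreg : G.IsRegularOfDegree 3) : ¬ G.IsAcyclic := by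
  classical
  intro hac
  obtain ⟨T, hGT, -, hT⟩ := SimpleGraph.Connected.exists_isTree_le_of_le_of_isAcyclic
    (G := (⊤ : SimpleGraph W)) SimpleGraph.connected_top (H := G) le_top hac
  have h1 : Nat.card T.edgeSet + 1 = Nat.card W :=
    (SimpleGraph.isTree_iff_connected_and_card.mp hT).2
  have h2 : Nat.card G.edgeSet ≤ Nat.card T.edgeSet :=
    Nat.card_le_card_of_injective
      (fun e => ⟨e.1, SimpleGraph.edgeSet_mono hGT e.2⟩) (by
        intro a b h
        simp only [Subtype.mk.injEq] at h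
        exact Subtype.ext h)
  have h3 := G.sum_degrees_eq_twice_card_edges
  rw [Finset.sum_congr rfl fun v _ => hreg v, Finset.sum_const, Finset.card_univ, smul_eq_mul] at h3
  have h4 : Nat.card G.edgeSet = G.edgeFinset.card := by
    rw [Nat.card_eq_fintype_card, SimpleGraph.edgeFinset_card]
  have h5 : Nat.card W = Fintype.card W := Nat.card_eq_fintype_card
  omega

/-- a graph without triangles and quadrilaterals has girth at least five -/
theorem girth_of {W : Type} (G : SimpleGraph W)
    (h3 : ∀ x y z, G.Adj x y → G.Adj y z → G.Adj z x → False)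
    (h4 : ∀ x y z w, x ≠ z → y ≠ w → G.Adj x y → G.Adj y z → G.Adj z w → G.Adj w x → False)
    (v : W) (c : G.Walk v v) (hc : c.IsCycle) : 5 ≤ c.length := by
  have hl := hc.three_le_length
  by_contra hlt
  rcases c with _ | ⟨h1, c⟩
  · simp at hl
  rcases c with _ | ⟨h2, c⟩
  · simp at hl
  rcases c with _ | ⟨h3', c⟩
  · simp at hl
  rcases c with _ | ⟨h4', c⟩
  · exact h3 _ _ _ h1 h2 h3'
  rcases c with _ | ⟨h5, c⟩
  · have hn := hc.support_nodup
    simp only [SimpleGraph.Walk.support_cons, SimpleGraph.Walk.support_nil, List.tail_cons,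
      List.nodup_cons, List.mem_cons, List.not_mem_nil, or_false, not_or] at hn
    exact h4 _ _ _ _ (fun h => hn.2.1.2 h.symm) (fun h => hn.1.2.1 h) h1 h2 h3' h4'
  · simp only [SimpleGraph.Walk.length_cons] at hlt
    omega

end Run7.h236.Scc
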