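import Pool.Agent.Run7.h236.Scc.B2

set_option autoImplicit false

/-! # Good poles and the windmill template -/

namespace Run7.h236.Scc

open Sum

/-- good poles -/
structure Good {V : Type} (A : V → V → Prop) (t : Fin 4 → V) : Prop where
  tinj : Function.Injective t
  symm : ∀ x y, A x y → A y x
  irrefl : ∀ x, ¬ A x x
  deg : ∀ v, Nat.card {w // A v w} + Nat.card {p // t p = v} = 3
  tri : ∀ x y z, A x y → A y z → A z x → False
  quad : ∀ x y z w, x ≠ z → y ≠ w → A x y → A y z → A z w → A w x → False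
  hp : ∀ p q, ¬ A (t p) (t q)
  h01 : ∀ w, A (t 0) w → ¬ A (t 1) w
  h23 : ∀ w, A (t 2) w → ¬ A (t 3) w
  conn1 : ∀ S : V → Bool, (∃ x, S x = true) → (∃ x, S x = false) → 2 ≤ cr A S
  conn2 : ∀ S : V → Bool, (∃ x y, x ≠ y ∧ S x = true ∧ S y = true) →
    4 ≤ cr A S + (Finset.univ.filter fun p => S (t p) = true).card
  conn3 : ∀ S : V → Bool, S (t 0) = true → S (t 1) = true → S (t 2) = false → S (t 3) = false →
    3 ≤ cr A S

/-- the 16 edges of the windmill template; the real vertices are `u, b0, a1, b1, c1, a2, b2, c2` -/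
def eW : Fin 16 → Nd (Fin 8) (Fin 3) × Nd (Fin 8) (Fin 3) :=
  ![(inl 1, inr (1, 1)), (inl 1, inr (2, 1)), (inl 2, inr (2, 2)), (inl 2, inr (0, 2)),
    (inl 3, inr (2, 3)), (inl 3, inr (0, 3)), (inl 4, inl 2), (inl 4, inl 3), (inl 4, inl 0),
    (inl 5, inr (0, 0)), (inl 5, inr (1, 2)), (inl 6, inr (0, 1)), (inl 6, inr (1, 3)),
    (inl 7, inl 5), (inl 7, inl 6), (inl 7, inl 0)]

/-- the outer ports of the template -/
def oW : Fin 4 → Nd (Fin 8) (Fin 3) := ![inl 1, inl 0, inr (1, 0), inr (2, 0)]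

set_option synthInstance.maxSize 2048 in
theorem TOK_W : TOK eW oW where
  einj1 := by decide +kernel
  einj2 := by decide +kernel
  oinj := by decide +kernel
  noself := by decide +kernel
  noloop := by decide +kernel
  uniq := by decide +kernel
  pdeg := by decide +kernel
  rdeg := by decide +kernel
  rsame := by decide +kernel
  rtri := by decide +kernel
  rquad := by decide +kernel

/-- the number of outer ports in a set of nodes -/
def wo {R B : Type} {q : ℕ} (o : Fin q → Nd R B) (s : Nd R B → Bool) : ℕ :=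
  (Finset.univ.filter fun p => s (o p) = true).card

/-- a set of nodes which is constant on blocks -/
def lift {R B : Type} (ρ : R → Bool) (σ : B → Bool) : Nd R B → Bool
  | inl i => ρ i
  | inr (j, _) => σ j

/-- a set of ports of one block -/
def one {R B : Type} [DecidableEq B] (j : B) (b : Fin 4 → Bool) : Nd R B → Bool
  | inl _ => false
  | inr (k, p) => if k = j then b p else false

/-- nodes outside a block -/
def nt {R B : Type} [DecidableEq B] (j : B) : Nd R B → Bool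
  | inl _ => true
  | inr (k, _) => if k = j then false else true

/-- the number of template edges outside block `j` in the cut -/
def wne {R B : Type} [DecidableEq B] {m : ℕ} (e : Fin m → Nd R B × Nd R B)
    (j : B) (s : Nd R B → Bool) : ℕ :=
  (Finset.univ.filter fun k => nt j (e k).1 = true ∧ nt j (e k).2 = true ∧
    s (e k).1 ≠ s (e k).2).card

/-- the number of outer ports outside block `j` in the set -/
def wno {R B : Type} [DecidableEq B] {q : ℕ} (o : Fin q → Nd R B) (j : B)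
    (s : Nd R B → Bool) : ℕ :=
  (Finset.univ.filter fun p => nt j (o p) = true ∧ s (o p) = true).card

set_option synthInstance.maxSize 4096 in
theorem chk1 : ∀ ρ0 ρ1 ρ2 ρ3 ρ4 ρ5 ρ6 ρ7 σ0 σ1 σ2 : Bool,
    (∀ i, ![ρ0, ρ1, ρ2, ρ3, ρ4, ρ5, ρ6, ρ7] i = ρ0) ∧ (∀ k, ![σ0, σ1, σ2] k = ρ0) ∨
    2 ≤ wt eW (lift ![ρ0, ρ1, ρ2, ρ3, ρ4, ρ5, ρ6, ρ7] ![σ0, σ1, σ2]) := by decide +kernel

set_option synthInstance.maxSize 4096 in
theorem chk2 : ∀ j : Fin 3, ∀ ρ0 ρ1 ρ2 ρ3 ρ4 ρ5 ρ6 ρ7 σ0 σ1 σ2 : Bool,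
    ((∀ i, ![ρ0, ρ1, ρ2, ρ3, ρ4, ρ5, ρ6, ρ7] i = false) ∧
      (∀ k, k ≠ j → ![σ0, σ1, σ2] k = false)) ∨
    2 ≤ wne eW j (lift ![ρ0, ρ1, ρ2, ρ3, ρ4, ρ5, ρ6, ρ7] ![σ0, σ1, σ2]) +
      wno oW j (lift ![ρ0, ρ1, ρ2, ρ3, ρ4, ρ5, ρ6, ρ7] ![σ0, σ1, σ2]) := by decide +kernel

theorem chk3 : ∀ j : Fin 3, ∀ b0 b1 b2 b3 : Bool,
    (Finset.univ.filter fun p => ![b0, b1, b2, b3] p = true).card ≤
      wt eW (one j ![b0, b1, b2, b3]) + wo oW (one j ![b0, b1, b2, b3]) := by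
  decide +kernel

set_option synthInstance.maxSize 4096 in
theorem chk4 : ∀ ρ0 ρ1 ρ2 ρ3 ρ4 ρ5 ρ6 ρ7 σ0 σ1 σ2 : Bool,
    ((∀ k, ![σ0, σ1, σ2] k = false) ∧
      ∀ i i', ![ρ0, ρ1, ρ2, ρ3, ρ4, ρ5, ρ6, ρ7] i = true →
        ![ρ0, ρ1, ρ2, ρ3, ρ4, ρ5, ρ6, ρ7] i' = true → i = i') ∨
    4 ≤ wt eW (lift ![ρ0, ρ1, ρ2, ρ3, ρ4, ρ5, ρ6, ρ7] ![σ0, σ1, σ2]) +
      wo oW (lift ![ρ0, ρ1, ρ2, ρ3, ρ4, ρ5, ρ6, ρ7] ![σ0, σ1, σ2]) := by decide +kernel

set_option synthInstance.maxSize 4096 in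
theorem chk5 : ∀ ρ2 ρ3 ρ4 ρ5 ρ6 ρ7 σ0 : Bool,
    3 ≤ wt eW (lift ![true, true, ρ2, ρ3, ρ4, ρ5, ρ6, ρ7] ![σ0, false, false]) := by
  decide +kernel

set_option synthInstance.maxSize 4096 in
theorem chk6 : ∀ j : Fin 3, ∀ ρ2 ρ3 ρ4 ρ5 ρ6 ρ7 σ0 σ1 σ2 : Bool,
    (1 ≠ j → σ1 = false) → (2 ≠ j → σ2 = false) →
    1 ≤ wne eW j (lift ![true, true, ρ2, ρ3, ρ4, ρ5, ρ6, ρ7] ![σ0, σ1, σ2]) := by
  decide +kernel

end Run7.h236.Scc
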