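import Pool.Agent.Run7.h236.Scc.B3

set_option autoImplicit false

/-! # The windmill composite of a good pole is good -/

namespace Run7.h236.Scc

open Sum

variable {V : Type}

/-- block `j` is cut by `S` -/
def nontriv {R B V : Type} (S : R ⊕ (B × V) → Bool) (j : B) : Prop :=
  (∃ v, S (inr (j, v)) = true) ∧ ∃ v, S (inr (j, v)) = false

theorem const_of_triv {R B V : Type} [Nonempty V] (S : R ⊕ (B × V) → Bool) (j : B)
    (h : ¬ nontriv S j) : ∃ b, ∀ v, S (inr (j, v)) = b := by
  obtain ⟨v0⟩ := ‹Nonempty V›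
  refine ⟨S (inr (j, v0)), fun v => ?_⟩
  unfold nontriv at h
  push Not at h
  rcases hv : S (inr (j, v0)) with _ | _
  · by_contra h'
    have h1 := h ⟨v, by simpa using h'⟩ v0
    exact h1 hv
  · by_contra h'
    exact h ⟨v0, hv⟩ v (by simpa using h')

theorem const_off {R B V : Type} [Nonempty V] (S : R ⊕ (B × V) → Bool) (j : B)
    (h : ∀ k, k ≠ j → ¬ nontriv S k) :
    ∃ σ : B → Bool, ∀ k, k ≠ j → ∀ v, S (inr (k, v)) = σ k := by
  classical
  have hσ' : ∀ k, ∃ b, k ≠ j → ∀ v, S (inr (k, v)) = b := by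
    intro k
    by_cases hk : k = j
    · exact ⟨false, fun h => absurd hk h⟩
    · obtain ⟨b, hb⟩ := const_of_triv S k (h k hk)
      exact ⟨b, fun _ => hb⟩
  choose σ hσ using hσ'
  exact ⟨σ, hσ⟩

section

variable {R B : Type} {m q : ℕ} [Fintype B] [DecidableEq B]
  {e : Fin m → Nd R B × Nd R B} {o : Fin q → Nd R B}

omit [Fintype B] in
theorem wne_le (s s' : Nd R B → Bool) (j : B) (h : ∀ a, nt j a = true → s a = s' a) :
    wne e j s' ≤ wt e s := by
  unfold wne wt
  apply Finset.card_le_card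
  intro k hk
  simp only [Finset.mem_filter, Finset.mem_univ, true_and] at hk ⊢
  rw [h _ hk.1, h _ hk.2.1]
  exact hk.2.2

omit [Fintype B] in
theorem wno_le (s s' : Nd R B → Bool) (j : B) (h : ∀ a, nt j a = true → s a = s' a) :
    wno o j s' ≤ wo o s := by
  unfold wno wo
  apply Finset.card_le_card
  intro k hk
  simp only [Finset.mem_filter, Finset.mem_univ, true_and] at hk ⊢
  rw [h _ hk.1]
  exact hk.2

theorem sum_two (c : B → ℕ) (j k : B) (hjk : j ≠ k) : c j + c k ≤ ∑ i, c i := by
  rw [← Finset.sum_pair hjk]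
  exact Finset.sum_le_sum_of_subset (Finset.subset_univ _)

omit [DecidableEq B] in
theorem sum_one (c : B → ℕ) (j : B) : c j ≤ ∑ i, c i :=
  Finset.single_le_sum (f := c) (fun _ _ => Nat.zero_le _) (Finset.mem_univ j)

end

/-- the graph of the composite -/
def AW (A : V → V → Prop) (t : Fin 4 → V) :
    (Fin 8 ⊕ (Fin 3 × V)) → (Fin 8 ⊕ (Fin 3 × V)) → Prop := comp A t eW

/-- the ports of the composite -/
def tW (t : Fin 4 → V) : Fin 4 → Fin 8 ⊕ (Fin 3 × V) := fun p => tau t (oW p)

theorem vec3 {α : Type} (ρ : Fin 3 → α) : ![ρ 0, ρ 1, ρ 2] = ρ := by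
  funext i; fin_cases i <;> rfl

theorem vec4 {α : Type} (ρ : Fin 4 → α) : ![ρ 0, ρ 1, ρ 2, ρ 3] = ρ := by
  funext i; fin_cases i <;> rfl

theorem vec8 {α : Type} (ρ : Fin 8 → α) :
    ![ρ 0, ρ 1, ρ 2, ρ 3, ρ 4, ρ 5, ρ 6, ρ 7] = ρ := by
  funext i; fin_cases i <;> rfl

theorem conn1_W [Finite V] {A : V → V → Prop} {t : Fin 4 → V} (hG : Good A t)
    (S : Fin 8 ⊕ (Fin 3 × V) → Bool) (h1 : ∃ x, S x = true) (h2 : ∃ x, S x = false) :
    2 ≤ cr (AW A t) S := by
  have hne : Nonempty V := ⟨t 0⟩
  have hcr := cr_comp (A := A) TOK_W hG.tinj S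
  unfold AW
  by_cases h : ∃ j, nontriv S j
  · obtain ⟨j, hj1, hj2⟩ := h
    have := hG.conn1 (fun v => S (inr (j, v))) hj1 hj2
    have h5 := sum_one (fun j => cr A (fun v => S (inr (j, v)))) j
    omega
  · push Not at h
    choose σ hσ using fun j => const_of_triv S j (h j)
    have hs : (fun a => S (tau t a)) = lift (fun i => S (inl i)) σ := by
      funext a
      rcases a with i | ⟨j, p⟩
      · rfl
      · exact hσ j _
    rw [hs] at hcr
    have h5 := chk1 (S (inl 0)) (S (inl 1)) (S (inl 2)) (S (inl 3)) (S (inl 4)) (S (inl 5))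
      (S (inl 6)) (S (inl 7)) (σ 0) (σ 1) (σ 2)
    rw [vec3 σ, vec8 (fun i => S (inl i))] at h5
    rcases h5 with ⟨a1, a2⟩ | h5
    · exfalso
      have hc : ∀ x, S x = S (inl 0) := by
        rintro (i | ⟨j, v⟩)
        · exact a1 i
        · rw [hσ j v]
          exact a2 j
      obtain ⟨x, hx⟩ := h1
      obtain ⟨y, hy⟩ := h2
      rw [hc] at hx hy
      rw [hx] at hy
      exact Bool.noConfusion hy
    · omega

theorem conn2_W [Finite V] {A : V → V → Prop} {t : Fin 4 → V} (hG : Good A t)
    (S : Fin 8 ⊕ (Fin 3 × V) → Bool) (h1 : ∃ x y, x ≠ y ∧ S x = true ∧ S y = true) :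
    4 ≤ cr (AW A t) S + (Finset.univ.filter fun p => S (tW t p) = true).card := by
  have hne : Nonempty V := ⟨t 0⟩
  have hcr := cr_comp (A := A) TOK_W hG.tinj S
  have hwo : (Finset.univ.filter fun p => S (tW t p) = true).card =
      wo oW (fun a => S (tau t a)) := rfl
  rw [hwo]
  unfold AW
  by_cases h : ∃ j, nontriv S j
  · obtain ⟨j, hj⟩ := h
    by_cases h' : ∃ k, k ≠ j ∧ nontriv S k
    · obtain ⟨k, hkj, hk⟩ := h'
      have e1 := hG.conn1 (fun v => S (inr (j, v))) hj.1 hj.2
      have e2 := hG.conn1 (fun v => S (inr (k, v))) hk.1 hk.2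
      have h5 := sum_two (fun j => cr A (fun v => S (inr (j, v)))) k j hkj
      omega
    · push Not at h'
      obtain ⟨σ, hσ⟩ := const_off S j h'
      have e1 := hG.conn1 (fun v => S (inr (j, v))) hj.1 hj.2
      have e3 := sum_one (fun j => cr A (fun v => S (inr (j, v)))) j
      have hag : ∀ a, nt j a = true → S (tau t a) = lift (fun i => S (inl i)) σ a := by
        rintro (i | ⟨k, p⟩) ha
        · rfl
        · simp only [nt] at ha
          by_cases hk : k = j
          · simp [hk] at ha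
          · exact hσ k hk _
      have e4 := wne_le (e := eW) (fun a => S (tau t a)) _ j hag
      have e5 := wno_le (o := oW) (fun a => S (tau t a)) _ j hag
      have h5 := chk2 j (S (inl 0)) (S (inl 1)) (S (inl 2)) (S (inl 3)) (S (inl 4)) (S (inl 5))
        (S (inl 6)) (S (inl 7)) (σ 0) (σ 1) (σ 2)
      rw [vec3 σ, vec8 (fun i => S (inl i))] at h5
      rcases h5 with ⟨a1, a4⟩ | h5
      · have hone : (fun a => S (tau t a)) = one j (fun p => S (inr (j, t p))) := by
          funext a
          rcases a with i | ⟨k, p⟩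
          · exact a1 i
          · change S (inr (k, t p)) = if k = j then S (inr (j, t p)) else false
            by_cases hk : k = j
            · rw [if_pos hk, hk]
            · rw [if_neg hk, hσ k hk]
              exact a4 k hk
        have h6 := chk3 j (S (inr (j, t 0))) (S (inr (j, t 1))) (S (inr (j, t 2)))
          (S (inr (j, t 3)))
        rw [vec4 (fun p => S (inr (j, t p)))] at h6
        rw [hone] at hcr ⊢
        have h7 := hG.conn2 (fun v => S (inr (j, v))) (by
          obtain ⟨x, y, hxy, hx, hy⟩ := h1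
          have hin : ∀ z, S z = true → ∃ v, z = inr (j, v) := by
            rintro (i | ⟨k, v⟩) hz
            · exact Bool.noConfusion ((a1 i).symm.trans hz)
            · by_cases hk : k = j
              · exact ⟨v, by rw [hk]⟩
              · rw [hσ k hk] at hz
                exact absurd (a4 k hk) (by rw [hz]; exact Bool.noConfusion)
          obtain ⟨v, rfl⟩ := hin x hx
          obtain ⟨w, rfl⟩ := hin y hy
          exact ⟨v, w, fun h => hxy (by rw [h]), hx, hy⟩)
        have h8 : (Finset.univ.filter fun p => S (inr (j, t p)) = true).card ≤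
          wt eW (one j fun p => S (inr (j, t p))) + wo oW (one j fun p => S (inr (j, t p))) := h6
        have h9 : 4 ≤ cr A (fun v => S (inr (j, v))) +
          (Finset.univ.filter fun p => S (inr (j, t p)) = true).card := h7
        omega
      · omega
  · push Not at h
    choose σ hσ using fun j => const_of_triv S j (h j)
    have hs : (fun a => S (tau t a)) = lift (fun i => S (inl i)) σ := by
      funext a
      rcases a with i | ⟨j, p⟩
      · rfl
      · exact hσ j _
    rw [hs] at hcr ⊢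
    have h5 := chk4 (S (inl 0)) (S (inl 1)) (S (inl 2)) (S (inl 3)) (S (inl 4)) (S (inl 5))
      (S (inl 6)) (S (inl 7)) (σ 0) (σ 1) (σ 2)
    rw [vec3 σ, vec8 (fun i => S (inl i))] at h5
    rcases h5 with ⟨a1, a5⟩ | h5
    · exfalso
      obtain ⟨x, y, hxy, hx, hy⟩ := h1
      have hin : ∀ z, S z = true → ∃ i, z = inl i := by
        rintro (i | ⟨k, v⟩) hz
        · exact ⟨i, rfl⟩
        · exfalso
          rw [hσ k] at hz
          exact Bool.noConfusion ((a1 k).symm.trans hz)
      obtain ⟨v, rfl⟩ := hin x hx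
      obtain ⟨w, rfl⟩ := hin y hy
      exact hxy (by rw [a5 v w hx hy])
    · omega

theorem conn3_W [Finite V] {A : V → V → Prop} {t : Fin 4 → V} (hG : Good A t)
    (S : Fin 8 ⊕ (Fin 3 × V) → Bool) (h0 : S (tW t 0) = true) (h1 : S (tW t 1) = true)
    (h2 : S (tW t 2) = false) (h3 : S (tW t 3) = false) : 3 ≤ cr (AW A t) S := by
  have hne : Nonempty V := ⟨t 0⟩
  have hcr := cr_comp (A := A) TOK_W hG.tinj S
  have g0 : S (inl 1) = true := h0
  have g1 : S (inl 0) = true := h1
  have g2 : S (inr (1, t 0)) = false := h2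
  have g3 : S (inr (2, t 0)) = false := h3
  unfold AW
  by_cases h : ∃ j, nontriv S j
  · obtain ⟨j, hj⟩ := h
    by_cases h' : ∃ k, k ≠ j ∧ nontriv S k
    · obtain ⟨k, hkj, hk⟩ := h'
      have e1 := hG.conn1 (fun v => S (inr (j, v))) hj.1 hj.2
      have e2 := hG.conn1 (fun v => S (inr (k, v))) hk.1 hk.2
      have h5 := sum_two (fun j => cr A (fun v => S (inr (j, v)))) k j hkj
      omega
    · push Not at h'
      obtain ⟨σ, hσ⟩ := const_off S j h'
      have e1 := hG.conn1 (fun v => S (inr (j, v))) hj.1 hj.2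
      have e3 := sum_one (fun j => cr A (fun v => S (inr (j, v)))) j
      have hag : ∀ a, nt j a = true → S (tau t a) = lift (fun i => S (inl i)) σ a := by
        rintro (i | ⟨k, p⟩) ha
        · rfl
        · simp only [nt] at ha
          by_cases hk : k = j
          · simp [hk] at ha
          · exact hσ k hk _
      have e4 := wne_le (e := eW) (fun a => S (tau t a)) _ j hag
      have h5 := chk6 j (S (inl 2)) (S (inl 3)) (S (inl 4)) (S (inl 5))
        (S (inl 6)) (S (inl 7)) (σ 0) (σ 1) (σ 2) (fun h => by rw [← hσ 1 h (t 0)]; exact g2)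
        (fun h => by rw [← hσ 2 h (t 0)]; exact g3)
      have h6 : (![true, true, S (inl 2), S (inl 3), S (inl 4), S (inl 5),
        S (inl 6), S (inl 7)] : Fin 8 → Bool) = fun i => S (inl i) := by
        rw [← vec8 (fun i => S (inl i)), g0, g1]
      rw [vec3 σ, h6] at h5
      omega
  · push Not at h
    choose σ hσ using fun j => const_of_triv S j (h j)
    have hs : (fun a => S (tau t a)) = lift (fun i => S (inl i)) σ := by
      funext a
      rcases a with i | ⟨j, p⟩
      · rfl
      · exact hσ j _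
    rw [hs] at hcr
    have h5 := chk5 (S (inl 2)) (S (inl 3)) (S (inl 4)) (S (inl 5))
      (S (inl 6)) (S (inl 7)) (σ 0)
    have h6 : (![true, true, S (inl 2), S (inl 3), S (inl 4), S (inl 5),
      S (inl 6), S (inl 7)] : Fin 8 → Bool) = fun i => S (inl i) := by
      rw [← vec8 (fun i => S (inl i)), g0, g1]
    have h7 : (![σ 0, false, false] : Fin 3 → Bool) = σ := by
      rw [← vec3 σ]
      have e1 : σ 1 = false := by rw [← hσ 1 (t 0)]; exact g2
      have e2 : σ 2 = false := by rw [← hσ 2 (t 0)]; exact g3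
      rw [e1, e2]
      rfl
    rw [h6, h7] at h5
    omega

section

variable {R B : Type} {m q : ℕ} [Fintype R] [Fintype B] [DecidableEq R] [DecidableEq B]
  {A : V → V → Prop} {t : Fin 4 → V} {e : Fin m → Nd R B × Nd R B} {o : Fin q → Nd R B}

/-- adjacency of template nodes in the composite -/
theorem tau_adj (ht : Function.Injective t) (hp : ∀ p q, ¬ A (t p) (t q)) {a b : Nd R B}
    (h : comp A t e (tau t a) (tau t b)) : TAdj e a b := by
  rcases comp_tau ht h with ⟨j, p, v, rfl, h1, h2⟩ | ⟨d, hd, h1⟩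
  · obtain ⟨p', rfl, rfl⟩ := tau_eq_inr h1.symm
    exact absurd h2 (hp _ _)
  · rwa [tau_inj ht h1]

theorem no_common (ht : Function.Injective t) (hp : ∀ p q, ¬ A (t p) (t q)) {a b : Nd R B}
    (h : ∀ d, TAdj e a d → ¬ TAdj e b d)
    (h' : ∀ j p p', a = inr (j, p) → b = inr (j, p') → False) (w : R ⊕ (B × V))
    (h1 : comp A t e (tau t a) w) : ¬ comp A t e (tau t b) w := by
  intro h2
  rcases comp_tau ht h1 with ⟨j, p, v, rfl, rfl, h3⟩ | ⟨d, hd, rfl⟩
  · rcases comp_tau ht h2 with ⟨j', p', v', rfl, h4, h5⟩ | ⟨d', hd', h4⟩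
    · simp only [Sum.inr.injEq, Prod.mk.injEq] at h4
      obtain ⟨rfl, rfl⟩ := h4
      exact h' _ _ _ rfl rfl
    · obtain ⟨p'', rfl, rfl⟩ := tau_eq_inr h4
      exact hp _ _ h3
  · exact h d hd (tau_adj ht hp h2)

end

theorem Good_W [Finite V] {A : V → V → Prop} {t : Fin 4 → V} (hG : Good A t) :
    Good (AW A t) (tW t) where
  tinj := fun p p' h => TOK_W.oinj _ _ (tau_inj hG.tinj h)
  symm := comp_symm hG.symm
  irrefl := comp_irrefl hG.tinj hG.irrefl TOK_W.noself TOK_W.noloop
  deg := deg_comp TOK_W hG.tinj hG.deg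
  tri := tri_comp TOK_W hG.tinj hG.symm hG.irrefl hG.hp hG.tri
  quad := quad_comp TOK_W hG.tinj hG.symm hG.irrefl hG.hp hG.h01 hG.h23 hG.quad
  hp := by
    intro p q h
    have h1 := tau_adj (a := oW p) (b := oW q) hG.tinj hG.hp h
    have key : ∀ p q, ¬ TAdj eW (oW p) (oW q) := by decide
    exact key p q h1
  h01 := no_common (a := oW 0) (b := oW 1) hG.tinj hG.hp (by decide) (by decide)
  h23 := no_common (a := oW 2) (b := oW 3) hG.tinj hG.hp (by decide) (by decide)
  conn1 := conn1_W hG
  conn2 := conn2_W hG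
  conn3 := conn3_W hG

end Run7.h236.Scc
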