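import Pool.Agent.Run7.h236.Scc.B4

set_option autoImplicit false

/-! # Cycle covers as labellings -/

namespace Run7.h236.Scc

open Sum

variable {R B V ι : Type} {q : ℕ}

/-- the number of edges and port edges at `v` whose label contains `i` -/
noncomputable def cnt (A : V → V → Prop) (t : Fin q → V) (L : V → V → Finset ι)
    (M : Fin q → Finset ι) (v : V) (i : ι) : ℕ :=
  Nat.card {y // A v y ∧ i ∈ L v y} + Nat.card {p // t p = v ∧ i ∈ M p}

/-- a family of even subgraphs which covers all edges: `L x y` is the set of members through the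
edge `xy`, `M p` the set of members through the port edge `p` -/
structure Cov (A : V → V → Prop) (t : Fin q → V) (L : V → V → Finset ι)
    (M : Fin q → Finset ι) : Prop where
  symm : ∀ x y, A x y → L x y = L y x
  ne : ∀ x y, A x y → (L x y).Nonempty
  neM : ∀ p, (M p).Nonempty
  even : ∀ v i, Even (cnt A t L M v i)

/-- at most two members pass through `v` -/
def Ex (A : V → V → Prop) (t : Fin q → V) (L : V → V → Finset ι) (M : Fin q → Finset ι)
    (v : V) : Prop :=
  ∃ a b : ι, (∀ y, A v y → ∀ i ∈ L v y, i = a ∨ i = b) ∧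
    ∀ p, t p = v → ∀ i ∈ M p, i = a ∨ i = b

theorem card_sub_eq {α : Type} (b : α) (Q : Prop) (P : α → Prop) (h : ∀ x, P x ↔ x = b ∧ Q)
    [Decidable Q] : Nat.card {x // P x} = if Q then 1 else 0 := by
  split_ifs with hQ
  · rw [Nat.card_eq_one_iff_unique]
    refine ⟨⟨?_⟩, ⟨⟨b, (h b).mpr ⟨rfl, hQ⟩⟩⟩⟩
    rintro ⟨x, hx⟩ ⟨y, hy⟩
    apply Subtype.ext
    exact ((h x).mp hx).1.trans ((h y).mp hy).1.symm
  · rw [Nat.card_eq_zero]
    left
    refine ⟨?_⟩
    rintro ⟨x, hx⟩
    exact hQ ((h x).mp hx).2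

theorem card_none {α : Type} (P : α → Prop) (h : ∀ x, ¬ P x) : Nat.card {x // P x} = 0 := by
  rw [Nat.card_eq_zero]
  left
  exact ⟨fun x => h x.1 x.2⟩

/-- the item at a port of a block: a template node, or an outer port -/
structure Mate {m : ℕ} (e : Fin m → Nd R B × Nd R B) (o : Fin q → Nd R B)
    (mate : B → Fin 4 → Nd R B ⊕ Fin q) : Prop where
  l : ∀ j p b, mate j p = inl b → (∀ b', TAdj e (inr (j, p)) b' ↔ b' = b) ∧ ∀ k, o k ≠ inr (j, p)
  r : ∀ j p k, mate j p = inr k → (∀ b', ¬ TAdj e (inr (j, p)) b') ∧ ∀ k', o k' = inr (j, p) ↔ k' = k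

/-- the label of the edge at a port of a block -/
def mlab (t : Fin 4 → V) (L : (R ⊕ (B × V)) → (R ⊕ (B × V)) → Finset ι) (M : Fin q → Finset ι)
    (mate : B → Fin 4 → Nd R B ⊕ Fin q) (j : B) (p : Fin 4) : Finset ι :=
  match mate j p with
  | inl b => L (inr (j, t p)) (tau t b)
  | inr k => M k

section

variable {m : ℕ} [Fintype R] [Fintype B] [DecidableEq R] [DecidableEq B] [Finite V]
  {A : V → V → Prop} {t : Fin 4 → V} {e : Fin m → Nd R B × Nd R B} {o : Fin q → Nd R B}
  {mate : B → Fin 4 → Nd R B ⊕ Fin q}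
  {L : (R ⊕ (B × V)) → (R ⊕ (B × V)) → Finset ι} {M : Fin q → Finset ι}

theorem cnt_block (T : TOK e o) (hm : Mate e o mate) (ht : Function.Injective t) (j : B) (v : V)
    (i : ι) : cnt (comp A t e) (fun k => tau t (o k)) L M (inr (j, v)) i =
      cnt A t (fun v w => L (inr (j, v)) (inr (j, w))) (mlab t L M mate j) v i := by
  classical
  unfold cnt
  rw [cnt_inr ht T.noself j v (fun y => i ∈ L (inr (j, v)) y), add_assoc]
  congr 1
  by_cases hv : ∃ p, t p = v
  · obtain ⟨p, rfl⟩ := hv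
    rcases hmp : mate j p with b | k
    · obtain ⟨h1, h2⟩ := hm.l j p b hmp
      rw [card_sub_eq b (i ∈ L (inr (j, t p)) (tau t b))
        (fun b' => (∃ p', t p' = t p ∧ TAdj e (inr (j, p')) b') ∧ i ∈ L (inr (j, t p)) (tau t b')),
        card_none (fun k => tau t (o k) = inr (j, t p) ∧ i ∈ M k),
        card_sub_eq p (i ∈ L (inr (j, t p)) (tau t b)), add_zero]
      · intro p'
        constructor
        · rintro ⟨h3, h4⟩
          have := ht h3
          subst this
          refine ⟨rfl, ?_⟩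
          unfold mlab at h4
          rw [hmp] at h4
          exact h4
        · rintro ⟨rfl, h4⟩
          refine ⟨rfl, ?_⟩
          unfold mlab
          rw [hmp]
          exact h4
      · rintro k ⟨h3, h4⟩
        exact h2 k (tau_inj ht (h3.trans rfl))
      · intro b'
        constructor
        · rintro ⟨⟨p', h3, h4⟩, h5⟩
          rw [ht h3] at h4
          have := (h1 b').mp h4
          subst this
          exact ⟨rfl, h5⟩
        · rintro ⟨rfl, h5⟩
          exact ⟨⟨p, rfl, (h1 _).mpr rfl⟩, h5⟩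
    · obtain ⟨h1, h2⟩ := hm.r j p k hmp
      rw [card_none (fun b' => (∃ p', t p' = t p ∧ TAdj e (inr (j, p')) b') ∧
        i ∈ L (inr (j, t p)) (tau t b')),
        card_sub_eq k (i ∈ M k) (fun k' => tau t (o k') = inr (j, t p) ∧ i ∈ M k'),
        card_sub_eq p (i ∈ M k), zero_add]
      · intro p'
        constructor
        · rintro ⟨h3, h4⟩
          have := ht h3
          subst this
          refine ⟨rfl, ?_⟩
          unfold mlab at h4
          rw [hmp] at h4
          exact h4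
        · rintro ⟨rfl, h4⟩
          refine ⟨rfl, ?_⟩
          unfold mlab
          rw [hmp]
          exact h4
      · intro k'
        constructor
        · rintro ⟨h3, h4⟩
          have := (h2 k').mp (tau_inj ht (h3.trans rfl))
          subst this
          exact ⟨rfl, h4⟩
        · rintro ⟨rfl, h4⟩
          refine ⟨?_, h4⟩
          rw [(h2 _).mpr rfl]
          rfl
      · rintro b' ⟨⟨p', h3, h4⟩, -⟩
        rw [ht h3] at h4
        exact h1 b' h4
  · push Not at hv
    rw [card_none, card_none, card_none]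
    · rintro p ⟨h3, -⟩
      exact hv p h3
    · rintro k ⟨h3, -⟩
      obtain ⟨p, -, h5⟩ := tau_eq_inr h3.symm
      exact hv p h5.symm
    · rintro b ⟨⟨p, h3, -⟩, -⟩
      exact hv p h3

omit [Fintype R] [Fintype B] [DecidableEq R] [DecidableEq B] [Finite V] in
theorem mate_adj (hm : Mate e o mate) {j : B} {p : Fin 4} {b : Nd R B} (h : mate j p = inl b) :
    comp A t e (inr (j, t p)) (tau t b) :=
  Or.inr ⟨inr (j, p), b, ((hm.l j p b h).1 b).mpr rfl, rfl, rfl⟩

theorem cov_block (T : TOK e o) (hm : Mate e o mate) (ht : Function.Injective t)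
    (hc : Cov (comp A t e) (fun k => tau t (o k)) L M) (j : B) :
    Cov A t (fun v w => L (inr (j, v)) (inr (j, w))) (mlab t L M mate j) where
  symm := fun x y h => hc.symm _ _ (Or.inl ⟨j, x, y, rfl, rfl, h⟩)
  ne := fun x y h => hc.ne _ _ (Or.inl ⟨j, x, y, rfl, rfl, h⟩)
  neM := by
    intro p
    unfold mlab
    rcases hmp : mate j p with b | k
    · exact hc.ne _ _ (mate_adj hm hmp)
    · exact hc.neM k
  even := by
    intro v i
    rw [← cnt_block (A := A) (L := L) (M := M) T hm ht j v i]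
    exact hc.even _ _

omit [Fintype R] [Fintype B] [DecidableEq R] [DecidableEq B] [Finite V] in
theorem ex_block (hm : Mate e o mate) (j : B) (v : V)
    (h : Ex (comp A t e) (fun k => tau t (o k)) L M (inr (j, v))) :
    Ex A t (fun v w => L (inr (j, v)) (inr (j, w))) (mlab t L M mate j) v := by
  obtain ⟨a, b, h1, h2⟩ := h
  refine ⟨a, b, fun y hy => h1 _ (Or.inl ⟨j, v, y, rfl, rfl, hy⟩), ?_⟩
  rintro p rfl i hi
  unfold mlab at hi
  rcases hmp : mate j p with b' | k
  · rw [hmp] at hi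
    exact h1 _ (mate_adj hm hmp) i hi
  · rw [hmp] at hi
    refine h2 k ?_ i hi
    change tau t (o k) = _
    rw [((hm.r j p k hmp).2 k).mpr rfl]
    rfl

/-- non-exact vertices of the blocks add up -/
theorem nx_block (hm : Mate e o mate) :
    ∑ j : B, Nat.card {v // ¬ Ex A t (fun v w => L (inr (j, v)) (inr (j, w)))
      (mlab t L M mate j) v} ≤ Nat.card {x // ¬ Ex (comp A t e) (fun k => tau t (o k)) L M x} := by
  rw [← Nat.card_sigma]
  refine Nat.card_le_card_of_injective
    (fun z => ⟨inr (z.1, z.2.1), fun h => z.2.2 (ex_block hm z.1 z.2.1 h)⟩) ?_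
  rintro ⟨j, v, hv⟩ ⟨j', v', hv'⟩ h
  simp only [Subtype.mk.injEq, Sum.inr.injEq, Prod.mk.injEq] at h
  obtain ⟨rfl, rfl⟩ := h
  rfl

end

/-- the items at a real vertex -/
structure RInc {m : ℕ} (e : Fin m → Nd R B × Nd R B) (o : Fin q → Nd R B)
    (rinc : R → Fin 3 → Nd R B ⊕ Fin q) : Prop where
  l : ∀ i b, TAdj e (inl i) b ↔ ∃ k, rinc i k = inl b
  r : ∀ i k', o k' = inl i ↔ ∃ k, rinc i k = inr k'
  inj : ∀ i k k', rinc i k = rinc i k' → k = k'

/-- the labels at a real vertex -/
def rlab (t : Fin 4 → V) (L : (R ⊕ (B × V)) → (R ⊕ (B × V)) → Finset ι) (M : Fin q → Finset ι)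
    (rinc : R → Fin 3 → Nd R B ⊕ Fin q) (i : R) (k : Fin 3) : Finset ι :=
  match rinc i k with
  | inl b => L (inl i) (tau t b)
  | inr k => M k

section

variable {m : ℕ} {A : V → V → Prop} {t : Fin 4 → V} {e : Fin m → Nd R B × Nd R B}
  {o : Fin q → Nd R B} {rinc : R → Fin 3 → Nd R B ⊕ Fin q}
  {L : (R ⊕ (B × V)) → (R ⊕ (B × V)) → Finset ι} {M : Fin q → Finset ι}

theorem cnt_real [Finite R] [Finite B] (hr : RInc e o rinc) (ht : Function.Injective t) (i : R)
    (x : ι) : cnt (comp A t e) (fun k => tau t (o k)) L M (inl i) x =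
      Nat.card {k : Fin 3 // x ∈ rlab t L M rinc i k} := by
  unfold cnt
  rw [cnt_inl ht i (fun y => x ∈ L (inl i) y), ← Nat.card_sum]
  symm
  have key : ∀ k : Fin 3, x ∈ rlab t L M rinc i k →
      (∃ b, rinc i k = inl b ∧ x ∈ L (inl i) (tau t b)) ∨ (∃ k', rinc i k = inr k' ∧ x ∈ M k') := by
    intro k hk
    unfold rlab at hk
    rcases hmp : rinc i k with b | k'
    · rw [hmp] at hk
      exact Or.inl ⟨b, rfl, hk⟩
    · rw [hmp] at hk
      exact Or.inr ⟨k', rfl, hk⟩
  have tno : ∀ k', tau t (o k') = inl i ↔ o k' = inl i := by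
    intro k'
    constructor
    · intro h
      exact tau_inj ht (h.trans rfl)
    · intro h
      rw [h]
      rfl
  -- map back: every item comes from a unique `k`
  have F : ∀ z : ({b // TAdj e (inl i) b ∧ x ∈ L (inl i) (tau t b)} ⊕
      {k' // tau t (o k') = inl i ∧ x ∈ M k'}), ∃ k : {k : Fin 3 // x ∈ rlab t L M rinc i k},
        rinc i k.1 = match z with
          | inl b => inl b.1
          | inr k' => inr k'.1 := by
    rintro (⟨b, hb, hx⟩ | ⟨k', hk', hx⟩)
    · obtain ⟨k, hk⟩ := (hr.l i b).mp hb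
      exact ⟨⟨k, by unfold rlab; rw [hk]; exact hx⟩, hk⟩
    · obtain ⟨k, hk⟩ := (hr.r i k').mp ((tno k').mp hk')
      exact ⟨⟨k, by unfold rlab; rw [hk]; exact hx⟩, hk⟩
  choose G hG using F
  symm
  refine Nat.card_congr (Equiv.ofBijective G ⟨?_, ?_⟩)
  · intro z z' h
    have h1 := hG z
    have h2 := hG z'
    rw [h, h2] at h1
    rcases z with ⟨b, hb⟩ | ⟨k, hk⟩ <;> rcases z' with ⟨b', hb'⟩ | ⟨k', hk'⟩ <;>
      simp at h1 ⊢ <;> exact h1.symm
  · rintro ⟨k, hk⟩
    rcases key k hk with ⟨b, hb, hx⟩ | ⟨k', hk', hx⟩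
    · refine ⟨inl ⟨b, (hr.l i b).mpr ⟨k, hb⟩, hx⟩, ?_⟩
      apply Subtype.ext
      exact hr.inj i _ _ ((hG _).trans hb.symm)
    · refine ⟨inr ⟨k', (tno k').mpr ((hr.r i k').mpr ⟨k, hk'⟩), hx⟩, ?_⟩
      apply Subtype.ext
      exact hr.inj i _ _ ((hG _).trans hk'.symm)

theorem rlab_ne (hr : RInc e o rinc) (hc : Cov (comp A t e) (fun k => tau t (o k)) L M)
    (i : R) (k : Fin 3) : (rlab t L M rinc i k).Nonempty := by
  unfold rlab
  rcases hmp : rinc i k with b | k'
  · exact hc.ne _ _ (Or.inr ⟨inl i, b, (hr.l i b).mpr ⟨k, hmp⟩, rfl, rfl⟩)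
  · exact hc.neM k'

theorem rlab_ex (hr : RInc e o rinc) (i : R)
    (h : Ex (comp A t e) (fun k => tau t (o k)) L M (inl i)) :
    ∃ a b, ∀ k, ∀ x ∈ rlab t L M rinc i k, x = a ∨ x = b := by
  obtain ⟨a, b, h1, h2⟩ := h
  refine ⟨a, b, fun k x hx => ?_⟩
  unfold rlab at hx
  rcases hmp : rinc i k with b' | k'
  · rw [hmp] at hx
    exact h1 _ (Or.inr ⟨inl i, b', (hr.l i b').mpr ⟨k, hmp⟩, rfl, rfl⟩) x hx
  · rw [hmp] at hx
    refine h2 k' ?_ x hx
    change tau t (o k') = _
    rw [(hr.r i k').mpr ⟨k, hmp⟩]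
    rfl

end

/-! ### three labels at a vertex -/

theorem card3 (N : Fin 3 → Finset ι) (x : ι) [DecidableEq ι] :
    Nat.card {k : Fin 3 // x ∈ N k} =
      (if x ∈ N 0 then 1 else 0) + (if x ∈ N 1 then 1 else 0) + (if x ∈ N 2 then 1 else 0) := by
  rw [Nat.card_eq_fintype_card, Fintype.card_subtype, Finset.card_filter, Fin.sum_univ_three]

theorem xor3 {N : Fin 3 → Finset ι} {x : ι} (h : Even (Nat.card {k : Fin 3 // x ∈ N k})) :
    (x ∈ N 0 ↔ ¬ (x ∈ N 1 ↔ x ∈ N 2)) := by
  classical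
  rw [card3] at h
  by_cases h0 : x ∈ N 0 <;> by_cases h1 : x ∈ N 1 <;> by_cases h2 : x ∈ N 2 <;>
    simp only [h0, h1, h2, if_true, if_false, iff_true, iff_false, not_true, not_false_iff,
      iff_self] <;> revert h <;> simp only [h0, h1, h2, if_true, if_false] <;> decide

/-- the size of a set with at most two possible elements -/
theorem card_two {N : Finset ι} {a b : ι} [DecidableEq ι] (hab : a ≠ b)
    (h : ∀ x ∈ N, x = a ∨ x = b) :
    N.card = (if a ∈ N then 1 else 0) + (if b ∈ N then 1 else 0) := by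
  have : N = (({a, b} : Finset ι).filter fun x => x ∈ N) := by
    ext x
    simp only [Finset.mem_filter, Finset.mem_insert, Finset.mem_singleton]
    constructor
    · intro hx
      exact ⟨h x hx, hx⟩
    · exact fun hx => hx.2
  conv_lhs => rw [this]
  rw [Finset.card_filter, Finset.sum_pair hab]

theorem ex3 {N : Fin 3 → Finset ι} (he : ∀ x, Even (Nat.card {k : Fin 3 // x ∈ N k}))
    (hne : ∀ k, (N k).Nonempty) (hab : ∃ a b, ∀ k, ∀ x ∈ N k, x = a ∨ x = b) :
    (N 0).card + (N 1).card + (N 2).card = 4 := by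
  classical
  obtain ⟨a, b, h⟩ := hab
  have hab : a ≠ b := by
    rintro rfl
    have h1 : ∀ k, a ∈ N k := by
      intro k
      obtain ⟨x, hx⟩ := hne k
      rcases h k x hx with rfl | rfl <;> exact hx
    have := he a
    rw [card3, if_pos (h1 0), if_pos (h1 1), if_pos (h1 2)] at this
    exact absurd this (by decide)
  have c : ∀ k, (N k).card = (if a ∈ N k then 1 else 0) + (if b ∈ N k then 1 else 0) :=
    fun k => card_two hab (h k)
  have n : ∀ k, a ∈ N k ∨ b ∈ N k := by
    intro k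
    obtain ⟨x, hx⟩ := hne k
    rcases h k x hx with rfl | rfl
    · exact Or.inl hx
    · exact Or.inr hx
  have ha := he a
  have hb := he b
  rw [card3] at ha hb
  have n0 := n 0
  have n1 := n 1
  have n2 := n 2
  rw [c 0, c 1, c 2]
  by_cases a0 : a ∈ N 0 <;> by_cases a1 : a ∈ N 1 <;> by_cases a2 : a ∈ N 2 <;>
  by_cases b0 : b ∈ N 0 <;> by_cases b1 : b ∈ N 1 <;> by_cases b2 : b ∈ N 2 <;>
  simp only [a0, a1, a2, b0, b1, b2, if_true, if_false, or_self, or_true, true_or] at ha hb n0 n1 n2 ⊢ <;>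
  first
  | exact absurd ha (by decide)
  | exact absurd hb (by decide)
  | rfl

/-- at an exact port the label has one or two elements -/
theorem port_card {A : V → V → Prop} {t : Fin q → V} {L : V → V → Finset ι}
    {M : Fin q → Finset ι} (hc : Cov A t L M) (p : Fin q) (h : Ex A t L M (t p)) :
    1 ≤ (M p).card ∧ (M p).card ≤ 2 := by
  classical
  refine ⟨Finset.card_pos.mpr (hc.neM p), ?_⟩
  obtain ⟨a, b, -, h2⟩ := h
  have : M p ⊆ {a, b} := by
    intro x hx
    simp only [Finset.mem_insert, Finset.mem_singleton]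
    exact h2 p rfl x hx
  exact (Finset.card_le_card this).trans Finset.card_le_two

/-- the handshake lemma: every member uses an even number of port edges -/
theorem par [Finite V] {A : V → V → Prop} {t : Fin q → V} {L : V → V → Finset ι}
    {M : Fin q → Finset ι} (hs : ∀ x y, A x y → A y x) (hi : ∀ x, ¬ A x x)
    (hc : Cov A t L M) (i : ι) : Even (Nat.card {p // i ∈ M p}) := by
  classical
  have := Fintype.ofFinite V
  let G : SimpleGraph V :=
    { Adj := fun x y => A x y ∧ i ∈ L x y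
      symm := ⟨fun x y h => ⟨hs x y h.1, by rw [← hc.symm x y h.1]; exact h.2⟩⟩
      loopless := ⟨fun x h => hi x h.1⟩ }
  have h1 : ∀ v, cnt A t L M v i = G.degree v + Nat.card {p // t p = v ∧ i ∈ M p} := by
    intro v
    unfold cnt
    congr 1
    rw [← SimpleGraph.card_neighborSet_eq_degree, ← Nat.card_eq_fintype_card]
    rfl
  have h2 : ∑ v, Nat.card {p // t p = v ∧ i ∈ M p} = Nat.card {p // i ∈ M p} := by
    rw [← Nat.card_sigma]
    refine Nat.card_congr (Equiv.ofBijective (fun z => ⟨z.2.1, z.2.2.2⟩) ⟨?_, ?_⟩)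
    · rintro ⟨v, p, h, h'⟩ ⟨v', p', k, k'⟩ he
      simp only [Subtype.mk.injEq] at he
      subst he
      subst h
      subst k
      rfl
    · rintro ⟨p, hp⟩
      exact ⟨⟨t p, p, rfl, hp⟩, rfl⟩
  have h3 : Even (∑ v, cnt A t L M v i) := Finset.even_sum _ fun v _ => hc.even v i
  have h4 : ∑ v, cnt A t L M v i = 2 * G.edgeFinset.card + Nat.card {p // i ∈ M p} := by
    rw [← h2, ← G.sum_degrees_eq_twice_card_edges, ← Finset.sum_add_distrib]
    exact Finset.sum_congr rfl fun v _ => h1 v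
  rw [h4] at h3
  exact (Nat.even_add.mp h3).mp (even_two_mul _)

end Run7.h236.Scc
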