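import Pool.Agent.Run7.h236.Scc.B5

set_option autoImplicit false

/-! # Forced double edges in the windmill composite -/

namespace Run7.h236.Scc

open Sum

variable {V : Type}

/-- the two sides of the pole are not both valid in an exact labelling -/
def NE (A : V → V → Prop) (t : Fin 4 → V) : Prop :=
  ∀ (ι : Type) [DecidableEq ι] (L : V → V → Finset ι) (M : Fin 4 → Finset ι), Cov A t L M →
    (∀ v, Ex A t L M v) → (symmDiff (M 0) (M 1)).card ≠ 1 ∧
      ((symmDiff (M 0) (M 1)).card = 2 → ¬ ∀ p, (M p).card = 1)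

/-- in an exact labelling the ports `0, 1` are single and the ports `2, 3` are double -/
def DD (A : V → V → Prop) (t : Fin 4 → V) : Prop :=
  ∀ (ι : Type) [DecidableEq ι] (L : V → V → Finset ι) (M : Fin 4 → Finset ι), Cov A t L M →
    (∀ v, Ex A t L M v) → (M 0).card = 1 ∧ (M 1).card = 1 ∧ (M 2).card = 2 ∧ (M 3).card = 2

/-- every labelling has at least `n` vertices which are not exact -/
def NX (A : V → V → Prop) (t : Fin 4 → V) (n : ℕ) : Prop :=
  ∀ (ι : Type) [DecidableEq ι] (L : V → V → Finset ι) (M : Fin 4 → Finset ι), Cov A t L M →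
    n ≤ Nat.card {v // ¬ Ex A t L M v}

def mateW : Fin 3 → Fin 4 → Nd (Fin 8) (Fin 3) ⊕ Fin 4 :=
  ![![inl (inl 5), inl (inl 6), inl (inl 2), inl (inl 3)],
    ![inr 2, inl (inl 1), inl (inl 5), inl (inl 6)],
    ![inr 3, inl (inl 1), inl (inl 2), inl (inl 3)]]

def rincW : Fin 8 → Fin 3 → Nd (Fin 8) (Fin 3) ⊕ Fin 4 :=
  ![![inr 1, inl (inl 4), inl (inl 7)],
    ![inr 0, inl (inr (1, 1)), inl (inr (2, 1))],
    ![inl (inl 4), inl (inr (2, 2)), inl (inr (0, 2))],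
    ![inl (inl 4), inl (inr (2, 3)), inl (inr (0, 3))],
    ![inl (inl 0), inl (inl 2), inl (inl 3)],
    ![inl (inl 7), inl (inr (0, 0)), inl (inr (1, 2))],
    ![inl (inl 7), inl (inr (0, 1)), inl (inr (1, 3))],
    ![inl (inl 0), inl (inl 5), inl (inl 6)]]

set_option synthInstance.maxSize 4096 in
theorem Mate_W : Mate eW oW mateW where
  l := by decide +kernel
  r := by decide +kernel

set_option synthInstance.maxSize 4096 in
theorem RInc_W : RInc eW oW rincW where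
  l := by decide +kernel
  r := by decide +kernel
  inj := by decide +kernel

theorem card_symm {ι : Type} [DecidableEq ι] (s t : Finset ι) :
    (symmDiff s t).card + 2 * (s ∩ t).card = s.card + t.card := by
  have h1 : (symmDiff s t) = (s \ t) ∪ (t \ s) := rfl
  rw [h1, Finset.card_union_of_disjoint]
  · have h2 := Finset.card_sdiff_add_card_inter s t
    have h3 := Finset.card_sdiff_add_card_inter t s
    rw [Finset.inter_comm t s] at h3
    omega
  · rw [Finset.disjoint_left]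
    intro x hx hy
    exact (Finset.mem_sdiff.mp hy).2 (Finset.mem_sdiff.mp hx).1

/-- a block with a nonempty flow through it has at least two double ports -/
theorem six {ι : Type} [DecidableEq ι] (m : Fin 4 → Finset ι)
    (hc : ∀ p, 1 ≤ (m p).card ∧ (m p).card ≤ 2)
    (h : symmDiff (m 0) (m 1) = symmDiff (m 2) (m 3)) (h1 : (symmDiff (m 0) (m 1)).card ≠ 1)
    (h2 : (symmDiff (m 0) (m 1)).card = 2 → ¬ ∀ p, (m p).card = 1)
    (h0 : symmDiff (m 0) (m 1) ≠ ∅) :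
    6 ≤ (m 0).card + (m 1).card + (m 2).card + (m 3).card := by
  have e1 := card_symm (m 0) (m 1)
  have e2 := card_symm (m 2) (m 3)
  rw [← h] at e2
  have e3 : (symmDiff (m 0) (m 1)).card ≠ 0 := by
    rw [Ne, Finset.card_eq_zero]
    exact h0
  have c0 := hc 0
  have c1 := hc 1
  have c2 := hc 2
  have c3 := hc 3
  by_contra hlt
  have f : (m 0).card = 1 ∧ (m 1).card = 1 ∧ (m 2).card = 1 ∧ (m 3).card = 1 := by omega
  refine h2 (by omega) ?_
  intro p
  fin_cases p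
  · exact f.1
  · exact f.2.1
  · exact f.2.2.1
  · exact f.2.2.2

theorem par4 {ι : Type} [DecidableEq ι] (m : Fin 4 → Finset ι)
    (h : ∀ x, Even (Nat.card {p // x ∈ m p})) : symmDiff (m 0) (m 1) = symmDiff (m 2) (m 3) := by
  ext x
  have hx := h x
  rw [Nat.card_eq_fintype_card, Fintype.card_subtype, Finset.card_filter, Fin.sum_univ_four] at hx
  rw [Finset.mem_symmDiff, Finset.mem_symmDiff]
  by_cases h0 : x ∈ m 0 <;> by_cases h1 : x ∈ m 1 <;> by_cases h2 : x ∈ m 2 <;>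
    by_cases h3 : x ∈ m 3 <;>
    simp only [h0, h1, h2, h3, if_true, if_false] at hx ⊢ <;>
    first
    | exact absurd hx (by decide)
    | decide

/-- the equations of a labelling of the windmill composite -/
structure Eqs {ι : Type} [DecidableEq ι] (M : Fin 4 → Finset ι)
    (m : Fin 3 → Fin 4 → Finset ι) (r : Fin 8 → Fin 3 → Finset ι) : Prop where
  x : ∀ i, r i 0 = symmDiff (r i 1) (r i 2)
  e1 : r 1 1 = m 1 1 ∧ r 1 2 = m 2 1
  e2 : r 2 1 = m 2 2 ∧ r 2 2 = m 0 2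
  e3 : r 3 1 = m 2 3 ∧ r 3 2 = m 0 3
  e5 : r 5 1 = m 0 0 ∧ r 5 2 = m 1 2
  e6 : r 6 1 = m 0 1 ∧ r 6 2 = m 1 3
  e4 : r 4 0 = r 0 1 ∧ r 4 1 = r 2 0 ∧ r 4 2 = r 3 0
  e7 : r 7 0 = r 0 2 ∧ r 7 1 = r 5 0 ∧ r 7 2 = r 6 0
  o : r 1 0 = M 0 ∧ r 0 0 = M 1 ∧ m 1 0 = M 2 ∧ m 2 0 = M 3

theorem eqs_W [Finite V] {A : V → V → Prop} {t : Fin 4 → V} (hG : Good A t) {ι : Type}
    [DecidableEq ι] {L : (Fin 8 ⊕ (Fin 3 × V)) → (Fin 8 ⊕ (Fin 3 × V)) → Finset ι}
    {M : Fin 4 → Finset ι} (hc : Cov (AW A t) (tW t) L M) :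
    Eqs M (mlab t L M mateW) (rlab t L M rincW) := by
  have hs : ∀ a b, TAdj eW a b → L (tau t a) (tau t b) = L (tau t b) (tau t a) :=
    fun a b h => hc.symm _ _ (Or.inr ⟨a, b, h, rfl, rfl⟩)
  refine ⟨?_, ⟨?_, ?_⟩, ⟨?_, ?_⟩, ⟨?_, ?_⟩, ⟨?_, ?_⟩, ⟨?_, ?_⟩, ⟨?_, ?_, ?_⟩, ⟨?_, ?_, ?_⟩,
    ⟨rfl, rfl, rfl, rfl⟩⟩
  · intro i
    ext x
    have h : Even (cnt (comp A t eW) (fun k => tau t (oW k)) L M (inl i) x) := hc.even (inl i) x
    rw [cnt_real RInc_W hG.tinj i x] at h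
    have h3 := xor3 h
    rw [Finset.mem_symmDiff, h3]
    tauto
  · exact hs (inl 1) (inr (1, 1)) (by decide)
  · exact hs (inl 1) (inr (2, 1)) (by decide)
  · exact hs (inl 2) (inr (2, 2)) (by decide)
  · exact hs (inl 2) (inr (0, 2)) (by decide)
  · exact hs (inl 3) (inr (2, 3)) (by decide)
  · exact hs (inl 3) (inr (0, 3)) (by decide)
  · exact hs (inl 5) (inr (0, 0)) (by decide)
  · exact hs (inl 5) (inr (1, 2)) (by decide)
  · exact hs (inl 6) (inr (0, 1)) (by decide)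
  · exact hs (inl 6) (inr (1, 3)) (by decide)
  · exact hs (inl 4) (inl 0) (by decide)
  · exact hs (inl 4) (inl 2) (by decide)
  · exact hs (inl 4) (inl 3) (by decide)
  · exact hs (inl 7) (inl 0) (by decide)
  · exact hs (inl 7) (inl 5) (by decide)
  · exact hs (inl 7) (inl 6) (by decide)

theorem DD_W [Finite V] {A : V → V → Prop} {t : Fin 4 → V} (hG : Good A t) (hN : NE A t) :
    DD (AW A t) (tW t) := by
  intro ι _ L M hc hex
  have E := eqs_W hG hc
  have hc' : Cov (comp A t eW) (fun k => tau t (oW k)) L M := hc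
  have hb := fun j => cov_block TOK_W Mate_W hG.tinj hc' j
  have hbe := fun j v => ex_block (A := A) (t := t) (L := L) (M := M) Mate_W j v (hex (inr (j, v)))
  set m := mlab t L M mateW with hm
  set r := rlab t L M rincW with hr
  have mc : ∀ j p, 1 ≤ (m j p).card ∧ (m j p).card ≤ 2 := fun j p =>
    port_card (hb j) p (hbe j (t p))
  have mp : ∀ j, symmDiff (m j 0) (m j 1) = symmDiff (m j 2) (m j 3) := fun j =>
    par4 _ fun x => par hG.symm hG.irrefl (hb j) x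
  have mn := fun j => hN ι _ _ (hb j) (hbe j)
  have rs : ∀ i, (r i 0).card + (r i 1).card + (r i 2).card = 4 := by
    intro i
    refine ex3 (N := r i) (fun x => ?_) (fun k => rlab_ne RInc_W hc' i k)
      (rlab_ex RInc_W i (hex (inl i)))
    rw [← cnt_real RInc_W hG.tinj i x]
    exact hc.even (inl i) x
  have rn : ∀ i k, 1 ≤ (r i k).card := fun i k =>
    Finset.card_pos.mpr (rlab_ne RInc_W hc' i k)
  -- flows
  have f1 : r 0 1 = symmDiff (symmDiff (m 2 0) (m 2 1)) (symmDiff (m 0 0) (m 0 1)) := by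
    rw [← E.e4.1, E.x 4, E.e4.2.1, E.e4.2.2, E.x 2, E.x 3, E.e2.1, E.e2.2, E.e3.1, E.e3.2,
      symmDiff_symmDiff_symmDiff_comm, mp 2, mp 0]
  have f2 : r 0 2 = symmDiff (symmDiff (m 0 0) (m 0 1)) (symmDiff (m 1 0) (m 1 1)) := by
    rw [← E.e7.1, E.x 7, E.e7.2.1, E.e7.2.2, E.x 5, E.x 6, E.e5.1, E.e5.2, E.e6.1, E.e6.2,
      symmDiff_symmDiff_symmDiff_comm, mp 1]
  have f0 : M 1 = symmDiff (symmDiff (m 2 0) (m 2 1)) (symmDiff (m 1 0) (m 1 1)) := by
    rw [← E.o.2.1, E.x 0, f1, f2, symmDiff_assoc, symmDiff_symmDiff_cancel_left]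
  have r0 := rs 0
  have n00 := rn 0 0
  have n01 := rn 0 1
  have n02 := rn 0 2
  have g0 : (r 0 0).card = (M 1).card := by rw [E.o.2.1]
  have T0 : symmDiff (m 0 0) (m 0 1) ≠ ∅ := by
    intro h
    rw [h] at f1 f2
    have e1 : r 0 1 = symmDiff (m 2 0) (m 2 1) := by rw [f1]; exact symmDiff_bot _
    have e2 : r 0 2 = symmDiff (m 1 0) (m 1 1) := by rw [f2]; exact bot_symmDiff _
    have k2 := (mn 2).1
    have k1 := (mn 1).1
    rw [← e1] at k2
    rw [← e2] at k1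
    omega
  have T1 : symmDiff (m 1 0) (m 1 1) ≠ ∅ := by
    intro h
    rw [h] at f0 f2
    have e1 : M 1 = symmDiff (m 2 0) (m 2 1) := by rw [f0]; exact symmDiff_bot _
    have e2 : r 0 2 = symmDiff (m 0 0) (m 0 1) := by rw [f2]; exact symmDiff_bot _
    have k2 := (mn 2).1
    have k1 := (mn 0).1
    rw [← e1] at k2
    rw [← e2] at k1
    omega
  have T2 : symmDiff (m 2 0) (m 2 1) ≠ ∅ := by
    intro h
    rw [h] at f0 f1
    have e1 : M 1 = symmDiff (m 1 0) (m 1 1) := by rw [f0]; exact bot_symmDiff _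
    have e2 : r 0 1 = symmDiff (m 0 0) (m 0 1) := by rw [f1]; exact bot_symmDiff _
    have k2 := (mn 1).1
    have k1 := (mn 0).1
    rw [← e1] at k2
    rw [← e2] at k1
    omega
  have s0 := six (m 0) (mc 0) (mp 0) (mn 0).1 (mn 0).2 T0
  have s1 := six (m 1) (mc 1) (mp 1) (mn 1).1 (mn 1).2 T1
  have s2 := six (m 2) (mc 2) (mp 2) (mn 2).1 (mn 2).2 T2
  have q1 := rs 1
  have q2 := rs 2
  have q3 := rs 3
  have q4 := rs 4
  have q5 := rs 5
  have q6 := rs 6
  have q7 := rs 7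
  rw [E.e1.1, E.e1.2, E.o.1] at q1
  rw [E.e2.1, E.e2.2] at q2
  rw [E.e3.1, E.e3.2] at q3
  rw [E.e4.1, E.e4.2.1, E.e4.2.2] at q4
  rw [E.e5.1, E.e5.2] at q5
  rw [E.e6.1, E.e6.2] at q6
  rw [E.e7.1, E.e7.2.1, E.e7.2.2] at q7
  rw [E.o.2.2.1] at s1
  rw [E.o.2.2.2] at s2
  have b2 : (M 2).card ≤ 2 := by rw [← E.o.2.2.1]; exact (mc 1 0).2
  have b3 : (M 3).card ≤ 2 := by rw [← E.o.2.2.2]; exact (mc 2 0).2
  have b0 : 1 ≤ (M 0).card := by rw [← E.o.1]; exact rn 1 0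
  have b1 : 1 ≤ (M 1).card := by rw [← E.o.2.1]; exact rn 0 0
  omega

theorem NX_one [Finite V] {A : V → V → Prop} {t : Fin 4 → V} (hG : Good A t) (hD : DD A t) :
    NX (AW A t) (tW t) 1 := by
  intro ι _ L M hc
  by_contra hlt
  have h0 : Nat.card {v // ¬ Ex (AW A t) (tW t) L M v} = 0 := by omega
  have hex : ∀ v, Ex (AW A t) (tW t) L M v := by
    intro v
    by_contra hv
    have : Nonempty {v // ¬ Ex (AW A t) (tW t) L M v} := ⟨⟨v, hv⟩⟩
    have h1 : 0 < Nat.card {v // ¬ Ex (AW A t) (tW t) L M v} := Nat.card_pos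
    omega
  have E := eqs_W hG hc
  have hc' : Cov (comp A t eW) (fun k => tau t (oW k)) L M := hc
  have hb := fun j => cov_block TOK_W Mate_W hG.tinj hc' j
  have hbe := fun j v => ex_block (A := A) (t := t) (L := L) (M := M) Mate_W j v (hex (inr (j, v)))
  have d0 := (hD ι _ _ (hb 0) (hbe 0)).2.2.1
  have d2 := (hD ι _ _ (hb 2) (hbe 2)).2.2.1
  have rs : (rlab t L M rincW 2 0).card + (rlab t L M rincW 2 1).card +
      (rlab t L M rincW 2 2).card = 4 := by
    refine ex3 (N := rlab t L M rincW 2) (fun x => ?_) (fun k => rlab_ne RInc_W hc' 2 k)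
      (rlab_ex RInc_W 2 (hex (inl 2)))
    rw [← cnt_real RInc_W hG.tinj 2 x]
    exact hc.even (inl 2) x
  have rn := Finset.card_pos.mpr (rlab_ne RInc_W hc' 2 0)
  rw [E.e2.1, E.e2.2] at rs
  omega

theorem NX_W [Finite V] {A : V → V → Prop} {t : Fin 4 → V} (hG : Good A t) {n : ℕ}
    (h : NX A t n) : NX (AW A t) (tW t) (3 * n) := by
  intro ι _ L M hc
  have hc' : Cov (comp A t eW) (fun k => tau t (oW k)) L M := hc
  have h1 := nx_block (A := A) (t := t) (L := L) (M := M) Mate_W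
  rw [Fin.sum_univ_three] at h1
  have h2 := fun j => h ι _ _ (cov_block TOK_W Mate_W hG.tinj hc' j)
  have a0 := h2 0
  have a1 := h2 1
  have a2 := h2 2
  change 3 * n ≤ Nat.card {x // ¬ Ex (comp A t eW) (fun k => tau t (oW k)) L M x}
  omega

end Run7.h236.Scc
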