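import Pool.Agent.Run7.h236.Scc.B6

set_option autoImplicit false

/-! # The base pole: the Petersen graph without two adjacent vertices -/

namespace Run7.h236.Scc

open Sum

/-! ### five pairs can be separated by three colours -/

theorem sum_deg {ι : Type} [DecidableEq ι] (S : Finset ι) : ∀ l : List (ι × ι),
    ∑ A ∈ S, l.countP (fun p => decide (p.1 = A ∨ p.2 = A)) ≤ 2 * l.length
  | [] => by simp
  | p :: l => by
    have ih := sum_deg S l
    have h1 : ∑ A ∈ S, (p :: l).countP (fun p => decide (p.1 = A ∨ p.2 = A)) =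
        ∑ A ∈ S, l.countP (fun p => decide (p.1 = A ∨ p.2 = A)) +
          ∑ A ∈ S, (if p.1 = A ∨ p.2 = A then 1 else 0) := by
      rw [← Finset.sum_add_distrib]
      refine Finset.sum_congr rfl fun A _ => ?_
      rw [List.countP_cons]
      simp only [decide_eq_true_eq]
    have h2 : ∑ A ∈ S, (if p.1 = A ∨ p.2 = A then 1 else 0) ≤ 2 := by
      rw [← Finset.card_filter]
      have h3 : (S.filter fun A => p.1 = A ∨ p.2 = A) ⊆ {p.1, p.2} := by
        intro A hA
        rw [Finset.mem_filter] at hA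
        simp only [Finset.mem_insert, Finset.mem_singleton]
        rcases hA.2 with h | h
        · exact Or.inl h.symm
        · exact Or.inr h.symm
      exact (Finset.card_le_card h3).trans Finset.card_le_two
    rw [h1, List.length_cons]
    omega

theorem free_colour (l : List (Fin 3)) (h : l.length ≤ 2) : ∃ c, c ∉ l := by
  by_contra hc
  push Not at hc
  have h1 : (Finset.univ : Finset (Fin 3)) ⊆ l.toFinset := fun c _ => List.mem_toFinset.mpr (hc c)
  have h2 := Finset.card_le_card h1
  have h3 := List.toFinset_card_le l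
  simp only [Finset.card_univ, Fintype.card_fin] at h2
  omega

theorem five_col {ι : Type} [DecidableEq ι] : ∀ (n : ℕ) (l : List (ι × ι)), l.length = n → n ≤ 5 →
    (∀ p ∈ l, p.1 ≠ p.2) → ∃ φ : ι → Fin 3, ∀ p ∈ l, φ p.1 ≠ φ p.2 := by
  intro n
  induction n using Nat.strong_induction_on with
  | _ n ih =>
    intro l hl hn hne
    set S : Finset ι := (l.map Prod.fst ++ l.map Prod.snd).toFinset with hS
    have mem1 : ∀ p ∈ l, p.1 ∈ S := by
      intro p hp
      rw [hS, List.mem_toFinset, List.mem_append]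
      exact Or.inl (List.mem_map.mpr ⟨p, hp, rfl⟩)
    have mem2 : ∀ p ∈ l, p.2 ∈ S := by
      intro p hp
      rw [hS, List.mem_toFinset, List.mem_append]
      exact Or.inr (List.mem_map.mpr ⟨p, hp, rfl⟩)
    by_cases h3 : S.card ≤ 3
    · -- colour injectively
      refine ⟨fun A => if h : A ∈ S then Fin.castLE h3 (S.equivFin ⟨A, h⟩) else 0, ?_⟩
      intro p hp
      beta_reduce
      rw [dif_pos (mem1 p hp), dif_pos (mem2 p hp)]
      intro h
      have h4 := Fin.castLE_injective h3 h
      have h5 := S.equivFin.injective h4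
      exact hne p hp (congrArg Subtype.val h5)
    · -- a name of degree at most two
      have hA : ∃ A ∈ S, l.countP (fun p => decide (p.1 = A ∨ p.2 = A)) ≤ 2 := by
        by_contra hc
        push Not at hc
        have h4 : ∑ A ∈ S, 3 ≤ ∑ A ∈ S, l.countP (fun p => decide (p.1 = A ∨ p.2 = A)) :=
          Finset.sum_le_sum fun A hA => hc A hA
        have h5 := sum_deg S l
        rw [Finset.sum_const, smul_eq_mul] at h4
        omega
      obtain ⟨A, hAS, hA2⟩ := hA
      set l' := l.filter (fun p => !decide (p.1 = A ∨ p.2 = A)) with hl'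
      have hpos : 0 < l.countP (fun p => decide (p.1 = A ∨ p.2 = A)) := by
        rw [List.countP_pos_iff]
        rw [hS, List.mem_toFinset, List.mem_append, List.mem_map, List.mem_map] at hAS
        rcases hAS with ⟨p, hp, h⟩ | ⟨p, hp, h⟩
        · exact ⟨p, hp, by simp [h]⟩
        · exact ⟨p, hp, by simp [h]⟩
      have hlen : l'.length < n := by
        have h4 := List.length_eq_countP_add_countP (fun p => decide (p.1 = A ∨ p.2 = A)) (l := l)
        have h5 : l'.length = l.countP (fun p => decide ¬ (decide (p.1 = A ∨ p.2 = A) = true)) := by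
          rw [hl', ← List.countP_eq_length_filter]
          congr 1
          funext p
          simp
        omega
      obtain ⟨φ, hφ⟩ := ih l'.length hlen l' rfl (by omega)
        (fun p hp => hne p (List.mem_of_mem_filter hp))
      obtain ⟨c, hc⟩ := free_colour ((l.filter (fun p => decide (p.1 = A ∨ p.2 = A))).map
        fun p => if p.1 = A then φ p.2 else φ p.1) (by
          rw [List.length_map, ← List.countP_eq_length_filter]
          exact hA2)
      rw [List.mem_map] at hc
      push Not at hc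
      refine ⟨Function.update φ A c, ?_⟩
      intro p hp
      by_cases h1 : p.1 = A
      · have h2 : p.2 ≠ A := fun h => hne p hp (h1.trans h.symm)
        rw [h1, Function.update_self, Function.update_of_ne h2]
        have h4 := hc p (List.mem_filter.mpr ⟨hp, by simp [h1]⟩)
        rw [if_pos h1] at h4
        exact fun h => h4 h.symm
      · by_cases h2 : p.2 = A
        · rw [h2, Function.update_self, Function.update_of_ne h1]
          have h4 := hc p (List.mem_filter.mpr ⟨hp, by simp [h2]⟩)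
          rw [if_neg h1] at h4
          exact h4
        · rw [Function.update_of_ne h1, Function.update_of_ne h2]
          exact hφ p (List.mem_filter.mpr ⟨hp, by simp [h1, h2]⟩)

/-- sets of size one or two with few pairs have names that can be coloured -/
theorem name_col {ι : Type} [DecidableEq ι] {n : ℕ} (N : Fin n → Finset ι)
    (h1 : ∀ k, 1 ≤ (N k).card ∧ (N k).card ≤ 2) (h2 : ∑ k, (N k).card ≤ n + 5) :
    ∃ φ : ι → Fin 3, ∀ k, ∀ a ∈ N k, ∀ b ∈ N k, a ≠ b → φ a ≠ φ b := by
  classical
  have hp : ∀ k, ∃ l : List (ι × ι), l.length + 1 = (N k).card ∧ (∀ p ∈ l, p.1 ≠ p.2) ∧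
      ∀ a ∈ N k, ∀ b ∈ N k, a ≠ b → (a, b) ∈ l ∨ (b, a) ∈ l := by
    intro k
    obtain ⟨c1, c2⟩ := h1 k
    have : (N k).card = 1 ∨ (N k).card = 2 := by omega
    rcases this with h | h
    · refine ⟨[], by rw [h]; rfl, by simp, ?_⟩
      obtain ⟨x, hx⟩ := Finset.card_eq_one.mp h
      intro a ha b hb hab
      rw [hx, Finset.mem_singleton] at ha hb
      exact absurd (ha.trans hb.symm) hab
    · obtain ⟨x, y, hxy, hN⟩ := Finset.card_eq_two.mp h
      refine ⟨[(x, y)], by rw [h]; rfl, by simpa using hxy, ?_⟩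
      intro a ha b hb hab
      rw [hN, Finset.mem_insert, Finset.mem_singleton] at ha hb
      rcases ha with rfl | rfl <;> rcases hb with rfl | rfl
      · exact absurd rfl hab
      · exact Or.inl (by simp)
      · exact Or.inr (by simp)
      · exact absurd rfl hab
  choose l hl1 hl2 hl3 using hp
  let L : List (ι × ι) := (List.finRange n).flatMap l
  have hlen : L.length ≤ 5 := by
    have h3 : L.length = ∑ k, (l k).length := by
      change ((List.finRange n).flatMap l).length = _
      rw [List.length_flatMap, ← List.ofFn_eq_map, List.sum_ofFn]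
    have h4 : ∑ k, ((l k).length + 1) = ∑ k, (N k).card := Finset.sum_congr rfl fun k _ => hl1 k
    rw [Finset.sum_add_distrib, ← h3] at h4
    simp only [Finset.sum_const, Finset.card_univ, Fintype.card_fin, smul_eq_mul, mul_one] at h4
    omega
  obtain ⟨φ, hφ⟩ := five_col L.length L rfl hlen (by
    intro p hp
    obtain ⟨k, -, hk⟩ := List.mem_flatMap.mp hp
    exact hl2 k p hk)
  refine ⟨φ, fun k a ha b hb hab => ?_⟩
  have hin : ∀ p ∈ l k, p ∈ L := fun p hp => List.mem_flatMap.mpr ⟨k, List.mem_finRange k, hp⟩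
  rcases hl3 k a ha b hb hab with h | h
  · exact hφ _ (hin _ h)
  · exact (hφ _ (hin _ h)).symm

abbrev K : Type := ZMod 2 × ZMod 2

def kc : Fin 3 → K := ![(0, 1), (1, 0), (1, 1)]

/-- the flow value of a set of names -/
def fv {ι : Type} (φ : ι → Fin 3) (N : Finset ι) : K := ∑ a ∈ N, kc (φ a)

theorem kc_ne : ∀ a, kc a ≠ 0 := by decide
theorem kc_add : ∀ a b, a ≠ b → kc a + kc b ≠ 0 := by decide
theorem k_two : ∀ a : K, a + a = 0 := by decide

theorem fv_ne {ι : Type} [DecidableEq ι] (φ : ι → Fin 3) (N : Finset ι)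
    (h1 : 1 ≤ N.card ∧ N.card ≤ 2) (h : ∀ a ∈ N, ∀ b ∈ N, a ≠ b → φ a ≠ φ b) : fv φ N ≠ 0 := by
  have : N.card = 1 ∨ N.card = 2 := by omega
  rcases this with h2 | h2
  · obtain ⟨x, rfl⟩ := Finset.card_eq_one.mp h2
    unfold fv
    rw [Finset.sum_singleton]
    exact kc_ne _
  · obtain ⟨x, y, hxy, rfl⟩ := Finset.card_eq_two.mp h2
    unfold fv
    rw [Finset.sum_pair hxy]
    exact kc_add _ _ (h x (by simp) y (by simp) hxy)

theorem fv_symm {ι : Type} [DecidableEq ι] (φ : ι → Fin 3) (N N' : Finset ι) :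
    fv φ (symmDiff N N') = fv φ N + fv φ N' := by
  unfold fv
  have h1 : (symmDiff N N') = (N \ N') ∪ (N' \ N) := rfl
  rw [h1, Finset.sum_union]
  · have h2 := Finset.sum_inter_add_sum_sdiff N N' (fun a => kc (φ a))
    have h3 := Finset.sum_inter_add_sum_sdiff N' N (fun a => kc (φ a))
    rw [Finset.inter_comm N' N] at h3
    rw [← h2, ← h3]
    have h4 := k_two (∑ x ∈ N ∩ N', kc (φ x))
    rw [add_add_add_comm, h4, zero_add]
  · rw [Finset.disjoint_left]
    intro x hx hy
    exact (Finset.mem_sdiff.mp hy).2 (Finset.mem_sdiff.mp hx).1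

set_option synthInstance.maxSize 4096 in
/-- the Petersen graph has no nowhere-zero flow with values in `K` -/
theorem petersen : ∀ m0 e01 e12 e23 e37 e57 : K,
    ¬ (m0 ≠ 0 ∧ e01 ≠ 0 ∧ e12 ≠ 0 ∧ e23 ≠ 0 ∧ e37 ≠ 0 ∧ e57 ≠ 0 ∧
      m0 + e01 ≠ 0 ∧ e01 + e12 ≠ 0 ∧ e12 + e23 ≠ 0 ∧ e23 + e37 ≠ 0 ∧ e01 + e12 + e57 ≠ 0 ∧
      e37 + e57 ≠ 0 ∧ m0 + e01 + (e37 + e57) ≠ 0 ∧
      e12 + e23 + (m0 + e01 + (e37 + e57)) ≠ 0 ∧
      m0 + (e23 + e37) ≠ 0 ∧
      m0 + (e23 + e37) =
        (e01 + e12 + e57) + (e12 + e23 + (m0 + e01 + (e37 + e57)))) := by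
  decide +kernel

end Run7.h236.Scc
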