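import Pool.Agent.Run7.h236.Scc.B7

set_option autoImplicit false

/-! # The base pole -/

namespace Run7.h236.Scc

open Sum

/-! ### incidence tables -/

section

variable {V ι : Type} {q : ℕ}

/-- the three items at every vertex -/
structure Inc (A : V → V → Prop) (t : Fin q → V) (inc : V → Fin 3 → V ⊕ Fin q) : Prop where
  l : ∀ v y, A v y ↔ ∃ k, inc v k = inl y
  r : ∀ v p, t p = v ↔ ∃ k, inc v k = inr p
  inj : ∀ v k k', inc v k = inc v k' → k = k'

/-- the labels at a vertex -/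
def ilab (L : V → V → Finset ι) (M : Fin q → Finset ι) (inc : V → Fin 3 → V ⊕ Fin q) (v : V)
    (k : Fin 3) : Finset ι :=
  match inc v k with
  | inl y => L v y
  | inr p => M p

variable {A : V → V → Prop} {t : Fin q → V} {L : V → V → Finset ι} {M : Fin q → Finset ι}
  {inc : V → Fin 3 → V ⊕ Fin q}

theorem cnt_inc [Finite V] (hr : Inc A t inc) (v : V) (x : ι) :
    cnt A t L M v x = Nat.card {k : Fin 3 // x ∈ ilab L M inc v k} := by
  unfold cnt
  rw [← Nat.card_sum]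
  have F : ∀ z : ({y // A v y ∧ x ∈ L v y} ⊕ {p // t p = v ∧ x ∈ M p}),
      ∃ k : {k : Fin 3 // x ∈ ilab L M inc v k},
        inc v k.1 = match z with
          | inl y => inl y.1
          | inr p => inr p.1 := by
    rintro (⟨y, hy, hx⟩ | ⟨p, hp, hx⟩)
    · obtain ⟨k, hk⟩ := (hr.l v y).mp hy
      exact ⟨⟨k, by unfold ilab; rw [hk]; exact hx⟩, hk⟩
    · obtain ⟨k, hk⟩ := (hr.r v p).mp hp
      exact ⟨⟨k, by unfold ilab; rw [hk]; exact hx⟩, hk⟩
  choose G hG using F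
  refine Nat.card_congr (Equiv.ofBijective G ⟨?_, ?_⟩)
  · intro z z' h
    have h1 := hG z
    have h2 := hG z'
    rw [h, h2] at h1
    rcases z with ⟨b, hb⟩ | ⟨k, hk⟩ <;> rcases z' with ⟨b', hb'⟩ | ⟨k', hk'⟩ <;>
      simp at h1 ⊢ <;> exact h1.symm
  · rintro ⟨k, hk⟩
    have hk0 := hk
    unfold ilab at hk0
    rcases hmp : inc v k with y | p
    · rw [hmp] at hk0
      refine ⟨inl ⟨y, (hr.l v y).mpr ⟨k, hmp⟩, hk0⟩, ?_⟩
      apply Subtype.ext
      exact hr.inj v _ _ ((hG _).trans hmp.symm)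
    · rw [hmp] at hk0
      refine ⟨inr ⟨p, (hr.r v p).mpr ⟨k, hmp⟩, hk0⟩, ?_⟩
      apply Subtype.ext
      exact hr.inj v _ _ ((hG _).trans hmp.symm)

theorem ilab_ne (hr : Inc A t inc) (hc : Cov A t L M) (v : V) (k : Fin 3) :
    (ilab L M inc v k).Nonempty := by
  unfold ilab
  rcases hmp : inc v k with y | p
  · exact hc.ne _ _ ((hr.l v y).mpr ⟨k, hmp⟩)
  · exact hc.neM p

theorem ilab_ex (hr : Inc A t inc) (v : V) (h : Ex A t L M v) :
    ∃ a b, ∀ k, ∀ x ∈ ilab L M inc v k, x = a ∨ x = b := by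
  obtain ⟨a, b, h1, h2⟩ := h
  refine ⟨a, b, fun k x hx => ?_⟩
  unfold ilab at hx
  rcases hmp : inc v k with y | p
  · rw [hmp] at hx
    exact h1 _ ((hr.l v y).mpr ⟨k, hmp⟩) x hx
  · rw [hmp] at hx
    exact h2 p ((hr.r v p).mpr ⟨k, hmp⟩) x hx

theorem ilab_card (hr : Inc A t inc) (hc : Cov A t L M) (v : V) (h : Ex A t L M v) (k : Fin 3) :
    1 ≤ (ilab L M inc v k).card ∧ (ilab L M inc v k).card ≤ 2 := by
  classical
  refine ⟨Finset.card_pos.mpr (ilab_ne hr hc v k), ?_⟩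
  obtain ⟨a, b, h2⟩ := ilab_ex hr v h
  have : ilab L M inc v k ⊆ {a, b} := by
    intro x hx
    simp only [Finset.mem_insert, Finset.mem_singleton]
    exact h2 k x hx
  exact (Finset.card_le_card this).trans Finset.card_le_two

end

/-! ### the pole -/

def E0 : List (Fin 8 × Fin 8) :=
  [(0, 1), (1, 2), (2, 3), (0, 4), (1, 5), (2, 6), (3, 7), (4, 6), (5, 7), (7, 4)]

def A0 (x y : Fin 8) : Prop := (x, y) ∈ E0 ∨ (y, x) ∈ E0

instance (x y : Fin 8) : Decidable (A0 x y) := by unfold A0; infer_instance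

def t0 : Fin 4 → Fin 8 := ![0, 3, 5, 6]

def inc0 : Fin 8 → Fin 3 → Fin 8 ⊕ Fin 4 :=
  ![![inr 0, inl 1, inl 4], ![inl 0, inl 2, inl 5], ![inl 1, inl 3, inl 6],
    ![inr 1, inl 2, inl 7], ![inl 0, inl 6, inl 7], ![inr 2, inl 1, inl 7],
    ![inr 3, inl 2, inl 4], ![inl 3, inl 5, inl 4]]

theorem Inc_0 : Inc A0 t0 inc0 where
  l := by decide +kernel
  r := by decide +kernel
  inj := by decide +kernel

def cr0 (S : Fin 8 → Bool) : ℕ :=
  (Finset.univ.filter fun p : Fin 8 × Fin 8 => S p.1 = true ∧ S p.2 = false ∧ A0 p.1 p.2).card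

theorem cr_eq (S : Fin 8 → Bool) : cr A0 S = cr0 S := by
  unfold cr cr0
  rw [Nat.card_eq_fintype_card, Fintype.card_subtype]

set_option synthInstance.maxSize 4096 in
theorem chk7 : ∀ s0 s1 s2 s3 s4 s5 s6 s7 : Bool,
    (∀ i, ![s0, s1, s2, s3, s4, s5, s6, s7] i = s0) ∨
      2 ≤ cr0 ![s0, s1, s2, s3, s4, s5, s6, s7] := by decide +kernel

set_option synthInstance.maxSize 4096 in
theorem chk8 : ∀ s0 s1 s2 s3 s4 s5 s6 s7 : Bool,
    (∀ i, ![s0, s1, s2, s3, s4, s5, s6, s7] i = true → ∀ i',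
      ![s0, s1, s2, s3, s4, s5, s6, s7] i' = true → i = i') ∨
      4 ≤ cr0 ![s0, s1, s2, s3, s4, s5, s6, s7] +
        (Finset.univ.filter fun p => ![s0, s1, s2, s3, s4, s5, s6, s7] (t0 p) = true).card := by
  decide +kernel

theorem chk9 : ∀ s1 s2 s4 s7 : Bool, 3 ≤ cr0 ![true, s1, s2, true, s4, false, false, s7] := by
  decide +kernel

theorem Good_0 : Good A0 t0 where
  tinj := by decide
  symm := by decide
  irrefl := by decide
  deg := by
    intro v
    rw [Nat.card_eq_fintype_card, Fintype.card_subtype, Nat.card_eq_fintype_card,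
      Fintype.card_subtype]
    revert v
    decide
  tri := by decide +kernel
  quad := by decide +kernel
  hp := by decide
  h01 := by decide
  h23 := by decide
  conn1 := by
    intro S ⟨x, hx⟩ ⟨y, hy⟩
    rw [cr_eq]
    have h := chk7 (S 0) (S 1) (S 2) (S 3) (S 4) (S 5) (S 6) (S 7)
    rw [vec8 S] at h
    rcases h with h | h
    · exfalso
      rw [h x] at hx
      rw [h y, hx] at hy
      exact Bool.noConfusion hy
    · exact h
  conn2 := by
    intro S ⟨x, y, hxy, hx, hy⟩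
    rw [cr_eq]
    have h := chk8 (S 0) (S 1) (S 2) (S 3) (S 4) (S 5) (S 6) (S 7)
    rw [vec8 S] at h
    rcases h with h | h
    · exact absurd (h x hx y hy) hxy
    · exact h
  conn3 := by
    intro S h0 h1 h2 h3
    rw [cr_eq]
    have h := chk9 (S 1) (S 2) (S 4) (S 7)
    have g0 : S 0 = true := h0
    have g1 : S 3 = true := h1
    have g2 : S 5 = false := h2
    have g3 : S 6 = false := h3
    have e : (![true, S 1, S 2, true, S 4, false, false, S 7] : Fin 8 → Bool) = S := by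
      rw [← vec8 S, g0, g1, g2, g3]
      rfl
    rw [e] at h
    exact h

theorem k_move : ∀ a b c : K, a = b + c → c = a + b := by decide

theorem NE_0 : NE A0 t0 := by
  intro ι _ L M hc hex
  -- labels at the vertices
  have X : ∀ v, ilab L M inc0 v 0 = symmDiff (ilab L M inc0 v 1) (ilab L M inc0 v 2) := by
    intro v
    ext x
    have h := hc.even v x
    rw [cnt_inc Inc_0 v x] at h
    have h3 := xor3 h
    rw [Finset.mem_symmDiff, h3]
    tauto
  have rs : ∀ v, (ilab L M inc0 v 0).card + (ilab L M inc0 v 1).card +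
      (ilab L M inc0 v 2).card = 4 := by
    intro v
    refine ex3 (N := ilab L M inc0 v) (fun x => ?_) (fun k => ilab_ne Inc_0 hc v k)
      (ilab_ex Inc_0 v (hex v))
    rw [← cnt_inc Inc_0 v x]
    exact hc.even v x
  have cc : ∀ v k, 1 ≤ (ilab L M inc0 v k).card ∧ (ilab L M inc0 v k).card ≤ 2 := fun v k =>
    ilab_card Inc_0 hc v (hex v) k
  have hs : ∀ x y, A0 x y → L x y = L y x := hc.symm
  -- the vertex equations
  have x0 : M 0 = symmDiff (L 0 1) (L 0 4) := X 0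
  have x1 : L 0 1 = symmDiff (L 1 2) (L 1 5) := by rw [hs 0 1 (by decide)]; exact X 1
  have x2 : L 1 2 = symmDiff (L 2 3) (L 2 6) := by rw [hs 1 2 (by decide)]; exact X 2
  have x3 : M 1 = symmDiff (L 2 3) (L 3 7) := by rw [hs 2 3 (by decide)]; exact X 3
  have x4 : L 0 4 = symmDiff (L 4 6) (L 4 7) := by rw [hs 0 4 (by decide)]; exact X 4
  have x5 : M 2 = symmDiff (L 1 5) (L 5 7) := by rw [hs 1 5 (by decide)]; exact X 5
  have x6 : M 3 = symmDiff (L 2 6) (L 4 6) := by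
    rw [hs 2 6 (by decide), hs 4 6 (by decide)]; exact X 6
  have x7 : L 3 7 = symmDiff (L 5 7) (L 4 7) := by
    rw [hs 3 7 (by decide), hs 5 7 (by decide), hs 4 7 (by decide)]; exact X 7
  have s0 : (M 0).card + (L 0 1).card + (L 0 4).card = 4 := rs 0
  have s1 : (L 0 1).card + (L 1 2).card + (L 1 5).card = 4 := by
    rw [hs 0 1 (by decide)]; exact rs 1
  have s2 : (L 1 2).card + (L 2 3).card + (L 2 6).card = 4 := by
    rw [hs 1 2 (by decide)]; exact rs 2
  have s3 : (M 1).card + (L 2 3).card + (L 3 7).card = 4 := by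
    rw [hs 2 3 (by decide)]; exact rs 3
  have s4 : (L 0 4).card + (L 4 6).card + (L 4 7).card = 4 := by
    rw [hs 0 4 (by decide)]; exact rs 4
  have s5 : (M 2).card + (L 1 5).card + (L 5 7).card = 4 := by
    rw [hs 1 5 (by decide)]; exact rs 5
  have s6 : (M 3).card + (L 2 6).card + (L 4 6).card = 4 := by
    rw [hs 2 6 (by decide), hs 4 6 (by decide)]; exact rs 6
  have s7 : (L 3 7).card + (L 5 7).card + (L 4 7).card = 4 := by
    rw [hs 3 7 (by decide), hs 5 7 (by decide), hs 4 7 (by decide)]; exact rs 7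
  have cM : ∀ p, 1 ≤ (M p).card ∧ (M p).card ≤ 2 := fun p => port_card hc p (hex _)
  have c01 : 1 ≤ (L 0 1).card ∧ (L 0 1).card ≤ 2 := cc 0 1
  have c04 : 1 ≤ (L 0 4).card ∧ (L 0 4).card ≤ 2 := cc 0 2
  have c12 : 1 ≤ (L 1 2).card ∧ (L 1 2).card ≤ 2 := cc 1 1
  have c15 : 1 ≤ (L 1 5).card ∧ (L 1 5).card ≤ 2 := cc 1 2
  have c23 : 1 ≤ (L 2 3).card ∧ (L 2 3).card ≤ 2 := cc 2 1
  have c26 : 1 ≤ (L 2 6).card ∧ (L 2 6).card ≤ 2 := cc 2 2
  have c37 : 1 ≤ (L 3 7).card ∧ (L 3 7).card ≤ 2 := cc 3 2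
  have c46 : 1 ≤ (L 4 6).card ∧ (L 4 6).card ≤ 2 := cc 4 1
  have c47 : 1 ≤ (L 4 7).card ∧ (L 4 7).card ≤ 2 := cc 4 2
  have c57 : 1 ≤ (L 5 7).card ∧ (L 5 7).card ≤ 2 := cc 5 2
  have hT : symmDiff (M 0) (M 1) = symmDiff (M 2) (M 3) :=
    par4 M fun x => par Good_0.symm Good_0.irrefl hc x
  have e1 := card_symm (M 0) (M 1)
  have e2 := card_symm (M 2) (M 3)
  rw [← hT] at e2
  have m0 := cM 0
  have m1 := cM 1
  have m2 := cM 2
  have m3 := cM 3
  -- the contradiction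
  have main : 1 ≤ (symmDiff (M 0) (M 1)).card → (symmDiff (M 0) (M 1)).card ≤ 2 →
      (L 0 1).card + (L 1 2).card + (L 2 3).card + (L 0 4).card + (L 1 5).card + (L 2 6).card +
      (L 3 7).card + (L 4 6).card + (L 5 7).card + (L 4 7).card + (M 0).card + (M 1).card +
      (M 2).card + (M 3).card + (symmDiff (M 0) (M 1)).card ≤ 20 → False := by
    intro h1 h2 h3
    let N : Fin 15 → Finset ι := ![L 0 1, L 1 2, L 2 3, L 0 4, L 1 5, L 2 6, L 3 7, L 4 6, L 5 7,
      L 4 7, M 0, M 1, M 2, M 3, symmDiff (M 0) (M 1)]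
    have hN : ∀ k, 1 ≤ (N k).card ∧ (N k).card ≤ 2 := by
      intro k
      fin_cases k
      · exact c01
      · exact c12
      · exact c23
      · exact c04
      · exact c15
      · exact c26
      · exact c37
      · exact c46
      · exact c57
      · exact c47
      · exact m0
      · exact m1
      · exact m2
      · exact m3
      · exact ⟨h1, h2⟩
    have hsum : ∑ k, (N k).card ≤ 15 + 5 := by
      simp only [N, Fin.sum_univ_succ, Matrix.cons_val_zero, Matrix.cons_val_succ,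
        Finset.univ_unique, Fin.default_eq_zero, Finset.sum_singleton, Matrix.cons_val_fin_one]
      omega
    obtain ⟨φ, hφ⟩ := name_col N hN hsum
    have nz : ∀ k, fv φ (N k) ≠ 0 := fun k => fv_ne φ (N k) (hN k) (hφ k)
    have y0 := k_move _ _ _ ((congrArg (fv φ) x0).trans (fv_symm φ _ _))
    have y1 := k_move _ _ _ ((congrArg (fv φ) x1).trans (fv_symm φ _ _))
    have y2 := k_move _ _ _ ((congrArg (fv φ) x2).trans (fv_symm φ _ _))
    have y3 := (congrArg (fv φ) x3).trans (fv_symm φ _ _)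
    have y4 := (congrArg (fv φ) x4).trans (fv_symm φ _ _)
    have y5 := (congrArg (fv φ) x5).trans (fv_symm φ _ _)
    have y6 := (congrArg (fv φ) x6).trans (fv_symm φ _ _)
    have y7 := k_move _ _ _ ((congrArg (fv φ) x7).trans (fv_symm φ _ _))
    have yT := (congrArg (fv φ) hT)
    rw [fv_symm, fv_symm] at yT
    have y4' : fv φ (L 4 6) = fv φ (L 0 4) + fv φ (L 4 7) := by
      have := k_move _ _ _ (y4.trans (add_comm _ _))
      exact this
    have n0 : fv φ (M 0) ≠ 0 := nz 10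
    have n01 : fv φ (L 0 1) ≠ 0 := nz 0
    have n12 : fv φ (L 1 2) ≠ 0 := nz 1
    have n23 : fv φ (L 2 3) ≠ 0 := nz 2
    have n04 : fv φ (L 0 4) ≠ 0 := nz 3
    have n15 : fv φ (L 1 5) ≠ 0 := nz 4
    have n26 : fv φ (L 2 6) ≠ 0 := nz 5
    have n37 : fv φ (L 3 7) ≠ 0 := nz 6
    have n46 : fv φ (L 4 6) ≠ 0 := nz 7
    have n57 : fv φ (L 5 7) ≠ 0 := nz 8
    have n47 : fv φ (L 4 7) ≠ 0 := nz 9
    have nM1 : fv φ (M 1) ≠ 0 := nz 11
    have nM2 : fv φ (M 2) ≠ 0 := nz 12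
    have nM3 : fv φ (M 3) ≠ 0 := nz 13
    have nT : fv φ (symmDiff (M 0) (M 1)) ≠ 0 := nz 14
    rw [fv_symm, y3] at nT
    rw [y0] at n04 y4'
    rw [y7] at n47 y4'
    rw [y4'] at n46 y6
    rw [y2] at n26 y6
    rw [y1] at n15 y5
    rw [y5] at nM2 yT
    rw [y3] at nM1 yT
    rw [y6] at nM3 yT
    exact petersen (fv φ (M 0)) (fv φ (L 0 1)) (fv φ (L 1 2)) (fv φ (L 2 3)) (fv φ (L 3 7))
      (fv φ (L 5 7)) ⟨n0, n01, n12, n23, n37, n57, n04, n15, n26, nM1, nM2, n47, n46, nM3, nT, yT⟩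
  constructor
  · intro h
    exact main (by omega) (by omega) (by omega)
  · intro h hM
    have g0 := hM 0
    have g1 := hM 1
    have g2 := hM 2
    have g3 := hM 3
    exact main (by omega) (by omega) (by omega)

/-- the poles of the recursion -/
theorem exists_pole (n : ℕ) : ∃ (V : Type) (_ : Finite V) (A : V → V → Prop) (t : Fin 4 → V),
    Good A t ∧ NX A t (3 ^ n) ∧ Nat.card V + 4 = 12 * 3 ^ (n + 2) := by
  have card : ∀ (V : Type) [Finite V], Nat.card (Fin 8 ⊕ (Fin 3 × V)) = 8 + 3 * Nat.card V := by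
    intro V _
    rw [Nat.card_sum, Nat.card_prod, Nat.card_eq_fintype_card, Nat.card_eq_fintype_card,
      Fintype.card_fin, Fintype.card_fin]
  induction n with
  | zero =>
    refine ⟨_, inferInstance, AW (AW A0 t0) (tW t0), tW (tW t0), Good_W (Good_W Good_0),
      NX_one (Good_W Good_0) (DD_W Good_0 NE_0), ?_⟩
    rw [card, card, Nat.card_eq_fintype_card, Fintype.card_fin]
    norm_num
  | succ n ih =>
    obtain ⟨V, hV, A, t, hG, hN, hc⟩ := ih
    refine ⟨_, inferInstance, AW A t, tW t, Good_W hG, ?_, ?_⟩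
    · rw [pow_succ, mul_comm]
      exact NX_W hG hN
    · rw [card, show n + 1 + 2 = (n + 2) + 1 from rfl, pow_succ]
      omega

end Run7.h236.Scc
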