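import Pool.Agent.Run7.h236.Scc.B8

set_option autoImplicit false

/-! # The closed graphs -/

namespace Run7.h236.Scc

open Sum

/-- the 5 edges of the closing template -/
def eC : Fin 5 → Nd (Fin 2) (Fin 1) × Nd (Fin 2) (Fin 1) :=
  ![(inl 0, inl 1), (inl 0, inr (0, 0)), (inl 0, inr (0, 1)), (inl 1, inr (0, 2)),
    (inl 1, inr (0, 3))]

def oC : Fin 0 → Nd (Fin 2) (Fin 1) := fun k => k.elim0

def mateC : Fin 1 → Fin 4 → Nd (Fin 2) (Fin 1) ⊕ Fin 0 :=
  ![![inl (inl 0), inl (inl 0), inl (inl 1), inl (inl 1)]]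

set_option synthInstance.maxSize 2048 in
theorem TOK_C : TOK eC oC where
  einj1 := by decide +kernel
  einj2 := by decide +kernel
  oinj := by decide +kernel
  noself := by decide +kernel
  noloop := by decide +kernel
  uniq := by decide +kernel
  pdeg := by decide +kernel
  rdeg := by decide +kernel
  rsame := by decide +kernel
  rtri := by decide +kernel
  rquad := by decide +kernel

set_option synthInstance.maxSize 4096 in
theorem Mate_C : Mate eC oC mateC where
  l := by decide +kernel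
  r := by decide +kernel

variable {V : Type} {A : V → V → Prop} {t : Fin 4 → V}

/-- the graph of the closed composite -/
def AC (A : V → V → Prop) (t : Fin 4 → V) :
    (Fin 2 ⊕ (Fin 1 × V)) → (Fin 2 ⊕ (Fin 1 × V)) → Prop := comp A t eC

theorem wt_C : ∀ x y s0 s1 s2 s3 : Bool,
    wt eC (fun a : Nd (Fin 2) (Fin 1) => match a with
      | inl i => ![x, y] i
      | inr (_, p) => ![s0, s1, s2, s3] p) =
    (if x ≠ y then 1 else 0) + (if x ≠ s0 then 1 else 0) + (if x ≠ s1 then 1 else 0) +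
      (if y ≠ s2 then 1 else 0) + (if y ≠ s3 then 1 else 0) := by decide +kernel

theorem vec2 {α : Type} (ρ : Fin 2 → α) : ![ρ 0, ρ 1] = ρ := by
  funext i; fin_cases i <;> rfl

theorem wt_C' (S : Fin 2 ⊕ (Fin 1 × V) → Bool) (t : Fin 4 → V) :
    wt eC (fun a => S (tau t a)) =
    (if S (inl 0) ≠ S (inl 1) then 1 else 0) + (if S (inl 0) ≠ S (inr (0, t 0)) then 1 else 0) +
      (if S (inl 0) ≠ S (inr (0, t 1)) then 1 else 0) +
      (if S (inl 1) ≠ S (inr (0, t 2)) then 1 else 0) +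
      (if S (inl 1) ≠ S (inr (0, t 3)) then 1 else 0) := by
  rw [← wt_C]
  congr 1
  funext a
  rcases a with i | ⟨j, p⟩
  · change S (inl i) = ![S (inl 0), S (inl 1)] i
    rw [vec2 (fun i => S (inl i))]
  · change S (inr (j, t p)) = ![S (inr (0, t 0)), S (inr (0, t 1)), S (inr (0, t 2)),
      S (inr (0, t 3))] p
    rw [vec4 (fun p => S (inr (0, t p))), Subsingleton.elim j 0]

theorem cr_C [Finite V] (hG : Good A t) (S : Fin 2 ⊕ (Fin 1 × V) → Bool) :
    cr A (fun v => S (inr (0, v))) + wt eC (fun a => S (tau t a)) ≤ cr (AC A t) S := by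
  have hcr := cr_comp (A := A) TOK_C hG.tinj S
  rw [Fin.sum_univ_one] at hcr
  exact hcr

theorem cr_not {W : Type} {A : W → W → Prop} (hs : ∀ x y, A x y → A y x) (S : W → Bool) :
    cr A (fun x => !(S x)) = cr A S := by
  unfold cr
  refine Nat.card_congr (Equiv.ofBijective
    (fun p => ⟨(p.1.2, p.1.1), by simpa using p.2.2.1, by simpa using p.2.1, hs _ _ p.2.2.2⟩)
    ⟨?_, ?_⟩)
  · rintro ⟨⟨a, b⟩, h⟩ ⟨⟨c, d⟩, h'⟩ he
    simp only [Subtype.mk.injEq, Prod.mk.injEq] at he
    simp only [Subtype.mk.injEq, Prod.mk.injEq]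
    exact ⟨he.2, he.1⟩
  · rintro ⟨⟨a, b⟩, h1, h2, h3⟩
    exact ⟨⟨(b, a), by simpa using h2, by simpa using h1, hs _ _ h3⟩, rfl⟩

theorem connC_a [Finite V] (hG : Good A t) (S : Fin 2 ⊕ (Fin 1 × V) → Bool)
    (h0 : S (inl 0) = false) (h1 : S (inl 1) = false)
    (h : ∃ x y, x ≠ y ∧ S x = true ∧ S y = true) : 4 ≤ cr (AC A t) S := by
  have hcr := cr_C hG S
  have hw := wt_C' S t
  have h7 := hG.conn2 (fun v => S (inr (0, v))) (by
    obtain ⟨x, y, hxy, hx, hy⟩ := h
    have hin : ∀ z, S z = true → ∃ v, z = inr (0, v) := by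
      rintro (i | ⟨k, v⟩) hz
      · exfalso
        fin_cases i
        · exact Bool.noConfusion (h0.symm.trans hz)
        · exact Bool.noConfusion (h1.symm.trans hz)
      · exact ⟨v, by rw [Subsingleton.elim k 0]⟩
    obtain ⟨v, rfl⟩ := hin x hx
    obtain ⟨w, rfl⟩ := hin y hy
    exact ⟨v, w, fun h => hxy (by rw [h]), hx, hy⟩)
  rw [Finset.card_filter, Fin.sum_univ_four] at h7
  rw [h0, h1] at hw
  cases hs0 : S (inr (0, t 0)) <;> cases hs1 : S (inr (0, t 1)) <;>
    cases hs2 : S (inr (0, t 2)) <;> cases hs3 : S (inr (0, t 3)) <;>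
    simp [hs0, hs1, hs2, hs3] at hw h7 <;> omega

theorem connC_b [Finite V] (hG : Good A t) (S : Fin 2 ⊕ (Fin 1 × V) → Bool)
    (h0 : S (inl 0) = true) (h1 : S (inl 1) = false)
    (h : ∃ x y, x ≠ y ∧ S x = true ∧ S y = true)
    (h' : ∃ x y, x ≠ y ∧ S x = false ∧ S y = false) : 4 ≤ cr (AC A t) S := by
  have hcr := cr_C hG S
  have hw := wt_C' S t
  rw [h0, h1] at hw
  have hT1 : ∃ v, S (inr (0, v)) = true := by
    by_contra hc
    push Not at hc
    obtain ⟨x, y, hxy, hx, hy⟩ := h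
    have hin : ∀ z, S z = true → z = inl 0 := by
      rintro (i | ⟨k, v⟩) hz
      · fin_cases i
        · rfl
        · exact Bool.noConfusion (h1.symm.trans hz)
      · rw [Subsingleton.elim k 0] at hz
        exact absurd hz (hc v)
    exact hxy ((hin x hx).trans (hin y hy).symm)
  have hT2 : ∃ v, S (inr (0, v)) = false := by
    by_contra hc
    push Not at hc
    obtain ⟨x, y, hxy, hx, hy⟩ := h'
    have hin : ∀ z, S z = false → z = inl 1 := by
      rintro (i | ⟨k, v⟩) hz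
      · fin_cases i
        · exact Bool.noConfusion (hz.symm.trans h0)
        · rfl
      · rw [Subsingleton.elim k 0] at hz
        exact absurd hz (hc v)
    exact hxy ((hin x hx).trans (hin y hy).symm)
  have e1 := hG.conn1 (fun v => S (inr (0, v))) hT1 hT2
  have e3 := hG.conn3 (fun v => S (inr (0, v)))
  cases hs0 : S (inr (0, t 0)) <;> cases hs1 : S (inr (0, t 1)) <;>
    cases hs2 : S (inr (0, t 2)) <;> cases hs3 : S (inr (0, t 3)) <;>
    simp [hs0, hs1, hs2, hs3] at hw e3 <;> omega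

theorem connC [Finite V] (hG : Good A t) (S : Fin 2 ⊕ (Fin 1 × V) → Bool)
    (h : ∃ x y, x ≠ y ∧ S x = true ∧ S y = true)
    (h' : ∃ x y, x ≠ y ∧ S x = false ∧ S y = false) : 4 ≤ cr (AC A t) S := by
  have hs := comp_symm (R := Fin 2) (B := Fin 1) (t := t) (e := eC) hG.symm
  have g : ∃ x y, x ≠ y ∧ (!(S x)) = true ∧ (!(S y)) = true := by
    obtain ⟨x, y, hxy, hx, hy⟩ := h'
    exact ⟨x, y, hxy, by simp [hx], by simp [hy]⟩
  have g' : ∃ x y, x ≠ y ∧ (!(S x)) = false ∧ (!(S y)) = false := by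
    obtain ⟨x, y, hxy, hx, hy⟩ := h
    exact ⟨x, y, hxy, by simp [hx], by simp [hy]⟩
  rcases h0 : S (inl 0) with _ | _ <;> rcases h1 : S (inl 1) with _ | _
  · exact connC_a hG S h0 h1 h
  · rw [← cr_not (A := AC A t) hs S]
    exact connC_b hG _ (by simp [h0]) (by simp [h1]) g g'
  · exact connC_b hG S h0 h1 h h'
  · rw [← cr_not (A := AC A t) hs S]
    exact connC_a hG _ (by simp [h0]) (by simp [h1]) g

/-- the closed composite as a simple graph -/
def GC (A : V → V → Prop) (t : Fin 4 → V) (hG : Good A t) : SimpleGraph (Fin 2 ⊕ (Fin 1 × V)) where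
  Adj := AC A t
  symm := ⟨fun x y h => comp_symm hG.symm x y h⟩
  loopless := ⟨fun x h => comp_irrefl hG.tinj hG.irrefl TOK_C.noself TOK_C.noloop x h⟩

theorem GC_deg [Finite V] (hG : Good A t) (v : Fin 2 ⊕ (Fin 1 × V)) :
    Nat.card {w // AC A t v w} = 3 := by
  have h := deg_comp TOK_C hG.tinj hG.deg v
  have h0 : Nat.card {k // tau t (oC k) = v} = 0 := by
    rw [Nat.card_eq_zero]
    left
    exact ⟨fun k => k.1.elim0⟩
  rw [h0, add_zero] at h
  exact h

theorem NX_C [Finite V] {n : ℕ} (hG : Good A t) (h : NX A t n) {ι : Type} [DecidableEq ι]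
    {L : (Fin 2 ⊕ (Fin 1 × V)) → (Fin 2 ⊕ (Fin 1 × V)) → Finset ι} {M : Fin 0 → Finset ι}
    {s : Fin 0 → Fin 2 ⊕ (Fin 1 × V)}
    (hc : Cov (AC A t) s L M) : n ≤ Nat.card {v // ¬ Ex (AC A t) s L M v} := by
  have hs : s = fun k => tau t (oC k) := by
    funext k
    exact k.elim0
  subst hs
  have hc' : Cov (comp A t eC) (fun k => tau t (oC k)) L M := hc
  have h1 := nx_block (A := A) (t := t) (L := L) (M := M) Mate_C
  rw [Fin.sum_univ_one] at h1
  have h2 := h ι _ _ (cov_block TOK_C Mate_C hG.tinj hc' 0)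
  exact h2.trans h1

end Run7.h236.Scc
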