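import Pool.Agent.Run7.h236.Scc.B10

set_option autoImplicit false

/-! # The closed windmill template -/

namespace Run7.h236.Scc

open Sum

/-- the 21 edges of the closed windmill template: `a_i = i`, `b_i = 3 + i`, `c_i = 6 + i`, `u = 9` -/
def eV : Fin 21 → Nd (Fin 10) (Fin 3) × Nd (Fin 10) (Fin 3) :=
  ![(inl 0, inr (1, 0)), (inl 0, inr (2, 2)), (inl 3, inr (1, 1)), (inl 3, inr (2, 3)),
    (inl 6, inl 0), (inl 6, inl 3), (inl 6, inl 9),
    (inl 1, inr (2, 0)), (inl 1, inr (0, 2)), (inl 4, inr (2, 1)), (inl 4, inr (0, 3)),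
    (inl 7, inl 1), (inl 7, inl 4), (inl 7, inl 9),
    (inl 2, inr (0, 0)), (inl 2, inr (1, 2)), (inl 5, inr (0, 1)), (inl 5, inr (1, 3)),
    (inl 8, inl 2), (inl 8, inl 5), (inl 8, inl 9)]

def oV : Fin 0 → Nd (Fin 10) (Fin 3) := fun k => k.elim0

def mateV : Fin 3 → Fin 4 → Nd (Fin 10) (Fin 3) ⊕ Fin 0 :=
  ![![inl (inl 2), inl (inl 5), inl (inl 1), inl (inl 4)],
    ![inl (inl 0), inl (inl 3), inl (inl 2), inl (inl 5)],
    ![inl (inl 1), inl (inl 4), inl (inl 0), inl (inl 3)]]

set_option synthInstance.maxSize 4096 in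
theorem TOK_V : TOK eV oV where
  einj1 := by decide +kernel
  einj2 := by decide +kernel
  oinj := by decide +kernel
  noself := by decide +kernel
  noloop := by decide +kernel
  uniq := by decide +kernel
  pdeg := by decide +kernel
  rdeg := by decide +kernel
  rsame := by decide +kernel
  rtri := by decide +kernel
  rquad := by decide +kernel

set_option synthInstance.maxSize 4096 in
theorem Mate_V : Mate eV oV mateV where
  l := by decide +kernel
  r := by decide +kernel

variable {V : Type} {A : V → V → Prop} {t : Fin 4 → V}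

/-- the graph of the closed windmill composite -/
def AV (A : V → V → Prop) (t : Fin 4 → V) :
    (Fin 10 ⊕ (Fin 3 × V)) → (Fin 10 ⊕ (Fin 3 × V)) → Prop := comp A t eV

theorem AV_deg [Finite V] (hG : Good A t) (v : Fin 10 ⊕ (Fin 3 × V)) :
    Nat.card {w // AV A t v w} = 3 := by
  have h := deg_comp TOK_V hG.tinj hG.deg v
  have h0 : Nat.card {k // tau t (oV k) = v} = 0 := by
    rw [Nat.card_eq_zero]
    left
    exact ⟨fun k => k.1.elim0⟩
  rw [h0, add_zero] at h
  exact h

theorem NX_V [Finite V] {n : ℕ} (hG : Good A t) (h : NX A t n) {ι : Type} [DecidableEq ι]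
    {L : (Fin 10 ⊕ (Fin 3 × V)) → (Fin 10 ⊕ (Fin 3 × V)) → Finset ι} {M : Fin 0 → Finset ι}
    {s : Fin 0 → Fin 10 ⊕ (Fin 3 × V)}
    (hc : Cov (AV A t) s L M) : 3 * n ≤ Nat.card {v // ¬ Ex (AV A t) s L M v} := by
  have hs : s = fun k => tau t (oV k) := by
    funext k
    exact k.elim0
  subst hs
  have hc' : Cov (comp A t eV) (fun k => tau t (oV k)) L M := hc
  have h1 := nx_block (A := A) (t := t) (L := L) (M := M) Mate_V
  rw [Fin.sum_univ_three] at h1
  have h2 := fun j => h ι _ _ (cov_block TOK_V Mate_V hG.tinj hc' j)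
  have a0 := h2 0
  have a1 := h2 1
  have a2 := h2 2
  change 3 * n ≤ Nat.card {x // ¬ Ex (comp A t eV) (fun k => tau t (oV k)) L M x}
  omega

end Run7.h236.Scc
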