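import Pool.Agent.Run7.h236.Scc.C1

set_option autoImplicit false

/-! # The closed windmill composite has no bridges -/

namespace Run7.h236.Scc

open Sum

variable {V : Type} {A : V → V → Prop} {t : Fin 4 → V}

set_option synthInstance.maxSize 8192 in
theorem chkV : ∀ ρ0 ρ1 ρ2 ρ3 ρ4 ρ5 ρ6 ρ7 ρ8 ρ9 σ0 σ1 σ2 : Bool,
    (∀ i, ![ρ0, ρ1, ρ2, ρ3, ρ4, ρ5, ρ6, ρ7, ρ8, ρ9] i = ρ0) ∧ (∀ k, ![σ0, σ1, σ2] k = ρ0) ∨
    2 ≤ wt eV (lift ![ρ0, ρ1, ρ2, ρ3, ρ4, ρ5, ρ6, ρ7, ρ8, ρ9] ![σ0, σ1, σ2]) := by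
  decide +kernel

theorem vec10 {α : Type} (ρ : Fin 10 → α) :
    ![ρ 0, ρ 1, ρ 2, ρ 3, ρ 4, ρ 5, ρ 6, ρ 7, ρ 8, ρ 9] = ρ := by
  funext i; fin_cases i <;> rfl

theorem conn1_V [Finite V] (hG : Good A t)
    (S : Fin 10 ⊕ (Fin 3 × V) → Bool) (h1 : ∃ x, S x = true) (h2 : ∃ x, S x = false) :
    2 ≤ cr (AV A t) S := by
  have hne : Nonempty V := ⟨t 0⟩
  have hcr := cr_comp (A := A) TOK_V hG.tinj S
  unfold AV
  by_cases h : ∃ j, nontriv S j
  · obtain ⟨j, hj1, hj2⟩ := h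
    have := hG.conn1 (fun v => S (inr (j, v))) hj1 hj2
    have h5 := sum_one (fun j => cr A (fun v => S (inr (j, v)))) j
    omega
  · push Not at h
    choose σ hσ using fun j => const_of_triv S j (h j)
    have hs : (fun a => S (tau t a)) = lift (fun i => S (inl i)) σ := by
      funext a
      rcases a with i | ⟨j, p⟩
      · rfl
      · exact hσ j _
    rw [hs] at hcr
    have h5 := chkV (S (inl 0)) (S (inl 1)) (S (inl 2)) (S (inl 3)) (S (inl 4)) (S (inl 5))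
      (S (inl 6)) (S (inl 7)) (S (inl 8)) (S (inl 9)) (σ 0) (σ 1) (σ 2)
    rw [vec3 σ, vec10 (fun i => S (inl i))] at h5
    rcases h5 with ⟨a1, a2⟩ | h5
    · exfalso
      have hc : ∀ x, S x = S (inl 0) := by
        rintro (i | ⟨j, v⟩)
        · exact a1 i
        · rw [hσ j v]
          exact a2 j
      obtain ⟨x, hx⟩ := h1
      obtain ⟨y, hy⟩ := h2
      rw [hc] at hx hy
      rw [hx] at hy
      exact Bool.noConfusion hy
    · omega

end Run7.h236.Scc
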