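import Mathlib

set_option autoImplicit false

/-!
# Excess of shortest cycle covers: definitions

Conventions of problem MP_dce662_co.
-/

namespace Run7.h236.Dce

/-- A snark: a cubic graph which is cyclically 4-edge-connected (whenever fewer than four edges are
deleted, the result does not have two components that both contain a cycle), has girth at least 5
and has no proper 3-edge-colouring. -/
structure IsSnark {V : Type} (G : SimpleGraph V) : Prop where
  cubic : ∀ v, (G.neighborSet v).ncard = 3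
  cyclic : ∀ D : Set (Sym2 V), D ⊆ G.edgeSet → D.ncard < 4 → ∀ (u v : V)
    (c : (G.deleteEdges D).Walk u u) (d : (G.deleteEdges D).Walk v v), c.IsCycle → d.IsCycle →
    (G.deleteEdges D).Reachable u v
  girth : ∀ (v : V) (c : G.Walk v v), c.IsCycle → 5 ≤ c.length
  uncolourable : ¬ ∃ f : Sym2 V → Fin 3, ∀ u v w : V, G.Adj u v → G.Adj u w → v ≠ w →
    f s(u, v) ≠ f s(u, w)

/-- A perfect matching: a set of edges of `G` such that every vertex is in exactly one of them. -/
def IsPerfectMatching {V : Type} (G : SimpleGraph V) (M : Set (Sym2 V)) : Prop :=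
  M ⊆ G.edgeSet ∧ ∀ v, ∃! e, e ∈ M ∧ v ∈ e

/-- A `k`-cover: a set of `k` perfect matchings whose union contains every edge. -/
def IsKCover {V : Type} (G : SimpleGraph V) (k : ℕ) (F : Finset (Set (Sym2 V))) : Prop :=
  F.card = k ∧ (∀ M ∈ F, IsPerfectMatching G M) ∧ ∀ e ∈ G.edgeSet, ∃ M ∈ F, e ∈ M

/-- A cycle: a connected subgraph in which every vertex has even degree. -/
def IsCyc {V : Type} {G : SimpleGraph V} (H : G.Subgraph) : Prop :=
  H.Connected ∧ ∀ v ∈ H.verts, Even (H.neighborSet v).ncard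

/-- A cycle cover: a finite family of cycles whose edge sets together contain every edge. -/
def IsCycleCover {V : Type} (G : SimpleGraph V) {k : ℕ} (C : Fin k → G.Subgraph) : Prop :=
  (∀ i, IsCyc (C i)) ∧ ∀ e ∈ G.edgeSet, ∃ i, e ∈ (C i).edgeSet

/-- The length of a family of subgraphs: the sum of their numbers of edges. -/
noncomputable def len {V : Type} {G : SimpleGraph V} {k : ℕ} (C : Fin k → G.Subgraph) : ℕ :=
  ∑ i, (C i).edgeSet.ncard

/-- The minimum length of a cycle cover. -/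
noncomputable def scc {V : Type} (G : SimpleGraph V) : ℕ :=
  sInf {l | ∃ (k : ℕ) (C : Fin k → G.Subgraph), IsCycleCover G C ∧ len C = l}

/-- The data of the construction: for `i ∈ {0, 1, 2}` a snark `G i` without `k`-covers for
`k ≤ 4`, an edge `x i y i` of it, the two neighbours `nx i 0`, `nx i 1` of `x i` other than `y i`,
and the two neighbours `ny i 0`, `ny i 1` of `y i` other than `x i`. -/
structure Data where
  V : Fin 3 → Type
  fin : ∀ i, Finite (V i)
  G : ∀ i, SimpleGraph (V i)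
  snark : ∀ i, IsSnark (G i)
  index : ∀ i k F, IsKCover (G i) k F → 5 ≤ k
  x : ∀ i, V i
  y : ∀ i, V i
  adj : ∀ i, (G i).Adj (x i) (y i)
  nx : ∀ i, Fin 2 → V i
  ny : ∀ i, Fin 2 → V i
  nx_inj : ∀ i, Function.Injective (nx i)
  ny_inj : ∀ i, Function.Injective (ny i)
  nx_range : ∀ i, Set.range (nx i) = (G i).neighborSet (x i) \ {y i}
  ny_range : ∀ i, Set.range (ny i) = (G i).neighborSet (y i) \ {x i}

/-- The vertices of the constructed graph: those of `H i = G i - {x i, y i}` (for `i = 0, 1, 2`),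
and `a i`, `b i`, `c i`, `u`. -/
inductive Vert (D : Data) : Type
  | h (i : Fin 3) (v : D.V i) (hv : v ≠ D.x i ∧ v ≠ D.y i)
  | a (i : Fin 3)
  | b (i : Fin 3)
  | c (i : Fin 3)
  | u

/-- The edges of the constructed graph, each in one direction (edges of `H i` in both).
The indices are elements of `Fin 3`, where addition and subtraction are modulo 3. -/
inductive Rel (D : Data) : Vert D → Vert D → Prop
  | h (i : Fin 3) (v w : D.V i) (hv : v ≠ D.x i ∧ v ≠ D.y i) (hw : w ≠ D.x i ∧ w ≠ D.y i) :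
      (D.G i).Adj v w → Rel D (.h i v hv) (.h i w hw)
  | ax (i : Fin 3) (h : D.nx (i + 1) 0 ≠ D.x (i + 1) ∧ D.nx (i + 1) 0 ≠ D.y (i + 1)) :
      Rel D (.a i) (.h (i + 1) (D.nx (i + 1) 0) h)
  | ay (i : Fin 3) (h : D.ny (i - 1) 0 ≠ D.x (i - 1) ∧ D.ny (i - 1) 0 ≠ D.y (i - 1)) :
      Rel D (.a i) (.h (i - 1) (D.ny (i - 1) 0) h)
  | bx (i : Fin 3) (h : D.nx (i + 1) 1 ≠ D.x (i + 1) ∧ D.nx (i + 1) 1 ≠ D.y (i + 1)) :
      Rel D (.b i) (.h (i + 1) (D.nx (i + 1) 1) h)
  | by' (i : Fin 3) (h : D.ny (i - 1) 1 ≠ D.x (i - 1) ∧ D.ny (i - 1) 1 ≠ D.y (i - 1)) :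
      Rel D (.b i) (.h (i - 1) (D.ny (i - 1) 1) h)
  | ca (i : Fin 3) : Rel D (.c i) (.a i)
  | cb (i : Fin 3) : Rel D (.c i) (.b i)
  | cu (i : Fin 3) : Rel D (.c i) .u

/-- The graph obtained by the construction. -/
def graph (D : Data) : SimpleGraph (Vert D) := SimpleGraph.fromRel (Rel D)

end Run7.h236.Dce
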