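import Pool.Agent.Run7.h236.Scc.B10
import Pool.Agent.Run7.h236.Scc.D0

set_option autoImplicit false

/-! # Four perfect matchings give an exact labelling -/

namespace Run7.h236.Dce

open Run7.h236.Scc

/-- the label of an edge in the perfect matchings `s` -/
def lab4 (s : Finset (Fin 4)) : Finset (Fin 4) := if s.card = 1 then s else sᶜ

theorem tab1 : ∀ g0 g1 g2 g3 : Fin 3, (∀ k : Fin 3, ∃ i, ![g0, g1, g2, g3] i = k) →
    ∀ x : Fin 4, Even (Finset.univ.filter fun k : Fin 3 =>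
      x ∈ lab4 (Finset.univ.filter fun i => ![g0, g1, g2, g3] i = k)).card := by
  decide +kernel

theorem tab2 : ∀ g0 g1 g2 g3 : Fin 3, (∀ k : Fin 3, ∃ i, ![g0, g1, g2, g3] i = k) →
    ∃ a b : Fin 4, ∀ k : Fin 3,
      ∀ x ∈ lab4 (Finset.univ.filter fun i => ![g0, g1, g2, g3] i = k), x = a ∨ x = b := by
  decide +kernel

theorem tab3 : ∀ g0 g1 g2 g3 : Fin 3, (∀ k : Fin 3, ∃ i, ![g0, g1, g2, g3] i = k) →
    ∀ k : Fin 3, (lab4 (Finset.univ.filter fun i => ![g0, g1, g2, g3] i = k)).Nonempty := by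
  decide +kernel

/-- a family of four perfect matchings from a set of at most four -/
theorem fam4 {α : Type} (F : Finset α) (h : F.card ≤ 4) (h0 : F.Nonempty) :
    ∃ f : Fin 4 → α, (∀ i, f i ∈ F) ∧ ∀ a ∈ F, ∃ i, f i = a := by
  classical
  obtain ⟨a0, ha0⟩ := h0
  refine ⟨fun i => if h : i.1 < F.card then (F.equivFin.symm ⟨i.1, h⟩).1 else a0, ?_, ?_⟩
  · intro i
    by_cases h1 : i.1 < F.card
    · simp only [h1, dite_true]
      exact (F.equivFin.symm ⟨i.1, h1⟩).2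
    · simp only [h1, dite_false]
      exact ha0
  · intro a ha
    refine ⟨⟨(F.equivFin ⟨a, ha⟩).1, lt_of_lt_of_le (F.equivFin ⟨a, ha⟩).2 h⟩, ?_⟩
    simp

theorem no_cover {W : Type} [Finite W] [Nonempty W] {G : SimpleGraph W}
    (hdeg : ∀ v, Nat.card {w // G.Adj v w} = 3) {n : ℕ} (hn : 1 ≤ n) {t : Fin 0 → W}
    (h : ∀ (L : W → W → Finset (Fin 4)) (M : Fin 0 → Finset (Fin 4)), Cov G.Adj t L M →
      n ≤ Nat.card {v // ¬ Ex G.Adj t L M v}) (k : ℕ) (F : Finset (Set (Sym2 W)))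
    (hF : IsKCover G k F) : 5 ≤ k := by
  classical
  by_contra hlt
  obtain ⟨h1, h2, h3⟩ := hF
  have hne : F.Nonempty := by
    obtain ⟨v⟩ := ‹Nonempty W›
    have : 0 < Nat.card {w // G.Adj v w} := by rw [hdeg v]; norm_num
    obtain ⟨⟨w, hw⟩⟩ := (Nat.card_pos_iff.mp this).1
    obtain ⟨M, hM, -⟩ := h3 s(v, w) ((SimpleGraph.mem_edgeSet G).mpr hw)
    exact ⟨M, hM⟩
  obtain ⟨f, hf1, hf2⟩ := fam4 F (by omega) hne
  have hpm : ∀ i, IsPerfectMatching G (f i) := fun i => h2 _ (hf1 i)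
  have hcov : ∀ e ∈ G.edgeSet, ∃ i, e ∈ f i := by
    intro e he
    obtain ⟨M, hM, heM⟩ := h3 e he
    obtain ⟨i, rfl⟩ := hf2 M hM
    exact ⟨i, heM⟩
  -- the partner of a vertex
  have hpart : ∀ v i, ∃ y, G.Adj v y ∧ ∀ z, G.Adj v z → (s(v, z) ∈ f i ↔ z = y) := by
    intro v i
    obtain ⟨e, ⟨he, hv⟩, hu⟩ := (hpm i).2 v
    obtain ⟨y, rfl⟩ := Sym2.mem_iff_exists.mp hv
    refine ⟨y, (SimpleGraph.mem_edgeSet G).mp ((hpm i).1 he), fun z _ => ⟨fun hz => ?_, ?_⟩⟩
    · exact Sym2.congr_right.mp (hu _ ⟨hz, Sym2.mem_mk_left _ _⟩)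
    · rintro rfl
      exact he
  choose p hp1 hp2 using hpart
  -- the labelling
  let L : W → W → Finset (Fin 4) := fun x y => lab4 (Finset.univ.filter fun i => s(x, y) ∈ f i)
  -- at a vertex
  have key : ∀ v, ∃ (φ : {w // G.Adj v w} ≃ Fin 3) (g : Fin 4 → Fin 3),
      (∀ k : Fin 3, ∃ i, g i = k) ∧
      ∀ y (hy : G.Adj v y), L v y = lab4 (Finset.univ.filter fun i => g i = φ ⟨y, hy⟩) := by
    intro v
    have hφ : Nonempty ({w // G.Adj v w} ≃ Fin 3) := by
      have := Finite.equivFin {w // G.Adj v w}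
      rw [hdeg v] at this
      exact ⟨this⟩
    obtain ⟨φ⟩ := hφ
    refine ⟨φ, fun i => φ ⟨p v i, hp1 v i⟩, ?_, ?_⟩
    · intro k
      obtain ⟨⟨y, hy⟩, rfl⟩ := φ.surjective k
      obtain ⟨i, hi⟩ := hcov s(v, y) ((SimpleGraph.mem_edgeSet G).mpr hy)
      refine ⟨i, ?_⟩
      have := (hp2 v i y hy).mp hi
      subst this
      rfl
    · intro y hy
      change lab4 _ = lab4 _
      congr 1
      ext i
      simp only [Finset.mem_filter, Finset.mem_univ, true_and]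
      rw [hp2 v i y hy]
      constructor
      · rintro rfl
        rfl
      · intro h
        exact (congrArg Subtype.val (φ.injective h)).symm
  have hcard : ∀ v (Q : W → Prop) (φ : {w // G.Adj v w} ≃ Fin 3) (R : Fin 3 → Prop),
      (∀ y (hy : G.Adj v y), Q y ↔ R (φ ⟨y, hy⟩)) →
      Nat.card {y // G.Adj v y ∧ Q y} = Nat.card {k // R k} := by
    intro v Q φ R hQR
    refine Nat.card_congr (Equiv.ofBijective
      (fun y => ⟨φ ⟨y.1, y.2.1⟩, (hQR _ _).mp y.2.2⟩) ⟨?_, ?_⟩)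
    · rintro ⟨y, hy⟩ ⟨z, hz⟩ he
      simp only [Subtype.mk.injEq] at he
      have := φ.injective he
      simp only [Subtype.mk.injEq] at this
      exact Subtype.ext this
    · rintro ⟨k, hk⟩
      obtain ⟨⟨y, hy⟩, rfl⟩ := φ.surjective k
      exact ⟨⟨y, hy, (hQR _ _).mpr hk⟩, rfl⟩
  have hex : ∀ v, Ex G.Adj t L (fun p => p.elim0) v := by
    intro v
    obtain ⟨φ, g, hg, hL⟩ := key v
    have h4 := tab2 (g 0) (g 1) (g 2) (g 3)
    rw [vec4 g] at h4
    obtain ⟨a, b, hab⟩ := h4 hg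
    refine ⟨a, b, fun y hy i hi => ?_, fun p => p.elim0⟩
    rw [hL y hy] at hi
    exact hab _ _ hi
  have hc : Cov G.Adj t L (fun p => p.elim0) := by
    refine ⟨?_, ?_, fun p => p.elim0, ?_⟩
    · intro x y _
      change lab4 _ = lab4 _
      rw [Sym2.eq_swap]
    · intro v y hy
      obtain ⟨φ, g, hg, hL⟩ := key v
      have h4 := tab3 (g 0) (g 1) (g 2) (g 3)
      rw [vec4 g] at h4
      rw [hL y hy]
      exact h4 hg _
    · intro v x
      obtain ⟨φ, g, hg, hL⟩ := key v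
      have h4 := tab1 (g 0) (g 1) (g 2) (g 3)
      rw [vec4 g] at h4
      have h5 := h4 hg x
      unfold cnt
      rw [card_none (fun p => t p = v ∧ x ∈ (fun p : Fin 0 => (p.elim0 : Finset (Fin 4))) p)
        (fun p => p.elim0), add_zero, hcard v (fun y => x ∈ L v y) φ
        (fun k => x ∈ lab4 (Finset.univ.filter fun i => g i = k)) (fun y hy => by rw [hL y hy]),
        Nat.card_eq_fintype_card, Fintype.card_subtype]
      exact h5
  have h6 := h L (fun p => p.elim0) hc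
  have h7 : Nat.card {v // ¬ Ex G.Adj t L (fun p => p.elim0) v} = 0 :=
    card_none _ fun v => not_not.mpr (hex v)
  omega

end Run7.h236.Dce
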