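import Pool.Agent.Run7.h236.Scc.C2
import Pool.Agent.Run7.h236.Scc.D1

set_option autoImplicit false

/-! # General facts: snarks, cycle covers -/

namespace Run7.h236.Dce

open Run7.h236.Scc Sum

/-- a graph on `W` with the cut property is cyclically 4-edge-connected -/
theorem cyclic_of {W : Type} [Finite W] (G : SimpleGraph W)
    (h : ∀ S : W → Bool, (∃ x y, x ≠ y ∧ S x = true ∧ S y = true) →
      (∃ x y, x ≠ y ∧ S x = false ∧ S y = false) → 4 ≤ cr G.Adj S)
    (D : Set (Sym2 W)) (hD : D.ncard < 4) (u v : W)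
    (c : (G.deleteEdges D).Walk u u) (d : (G.deleteEdges D).Walk v v)
    (hc : c.IsCycle) (hd : d.IsCycle) : (G.deleteEdges D).Reachable u v := by
  classical
  by_contra hnr
  let b : W → Bool := fun w => decide ((G.deleteEdges D).Reachable u w)
  have hb1 : ∀ w, b w = true ↔ (G.deleteEdges D).Reachable u w := fun w => by simp [b]
  have hb2 : ∀ w, b w = false ↔ ¬ (G.deleteEdges D).Reachable u w := fun w => by simp [b]
  have h4 := h b ?_ ?_
  · -- the cut edges lie in D
    have : cr G.Adj b ≤ D.ncard := by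
      unfold cr
      rw [← Nat.card_coe_set_eq]
      have hfin : Finite D := Set.toFinite D
      let F : {p : W × W // b p.1 = true ∧ b p.2 = false ∧ G.Adj p.1 p.2} → D := fun p =>
        ⟨s(p.1.1, p.1.2), by
          by_contra hnD
          have h1 : (G.deleteEdges D).Adj p.1.1 p.1.2 :=
            SimpleGraph.deleteEdges_adj.mpr ⟨p.2.2.2, hnD⟩
          exact ((hb2 _).mp p.2.2.1) (((hb1 _).mp p.2.1).trans h1.reachable)⟩
      refine Nat.card_le_card_of_injective F ?_
      rintro ⟨⟨x, y⟩, h1, h2, h3⟩ ⟨⟨x', y'⟩, h1', h2', h3'⟩ he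
      simp only [F, Subtype.mk.injEq, Sym2.eq_iff] at he
      rcases he with ⟨rfl, rfl⟩ | ⟨rfl, rfl⟩
      · rfl
      · simp only at h1 h2'
        rw [h1] at h2'
        exact Bool.noConfusion h2'
    omega
  · have ha := c.adj_snd (fun h => hc.ne_nil (SimpleGraph.Walk.eq_nil_iff_nil.mpr h))
    exact ⟨u, c.snd, ha.ne, (hb1 _).mpr (SimpleGraph.Reachable.refl _), (hb1 _).mpr ha.reachable⟩
  · have ha := d.adj_snd (fun h => hd.ne_nil (SimpleGraph.Walk.eq_nil_iff_nil.mpr h))
    refine ⟨v, d.snd, ha.ne, (hb2 _).mpr hnr, (hb2 _).mpr fun h => hnr ?_⟩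
    exact h.trans ha.symm.reachable

/-- a graph with a 3-edge-colouring given by a function on edges is 3-edge-colourable -/
theorem col_of {W : Type} (G : SimpleGraph W)
    (h : ∃ f : Sym2 W → Fin 3, ∀ u v w : W, G.Adj u v → G.Adj u w → v ≠ w →
      f s(u, v) ≠ f s(u, w)) : G.lineGraph.Colorable 3 := by
  obtain ⟨f, hf⟩ := h
  refine ⟨SimpleGraph.Coloring.mk (fun e => f e.1) ?_⟩
  intro e e' he
  rw [SimpleGraph.lineGraph_adj_iff_exists] at he
  obtain ⟨hne, u, hu, hu'⟩ := he
  obtain ⟨e, he⟩ := e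
  obtain ⟨e', he'⟩ := e'
  obtain ⟨v, rfl⟩ := Sym2.mem_iff_exists.mp hu
  obtain ⟨w, rfl⟩ := Sym2.mem_iff_exists.mp hu'
  refine hf u v w ((SimpleGraph.mem_edgeSet G).mp he) ((SimpleGraph.mem_edgeSet G).mp he') ?_
  rintro rfl
  exact hne rfl

section exist

variable {W : Type} [Finite W] {G : SimpleGraph W}

/-- in a graph without bridges every edge lies in a cycle -/
theorem exists_cyc (h : ∀ S : W → Bool, (∃ x, S x = true) → (∃ x, S x = false) →
    2 ≤ cr G.Adj S) (e : Sym2 W) (he : e ∈ G.edgeSet) :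
    ∃ H : G.Subgraph, IsCyc H ∧ e ∈ H.edgeSet := by
  classical
  induction e with
  | _ v w =>
  have hvw : G.Adj v w := (SimpleGraph.mem_edgeSet G).mp he
  have hr : (G.deleteEdges {s(v, w)}).Reachable v w := by
    by_contra hnr
    have h4 := h (fun x => decide ((G.deleteEdges {s(v, w)}).Reachable v x))
      ⟨v, decide_eq_true (SimpleGraph.Reachable.refl _)⟩ ⟨w, decide_eq_false hnr⟩
    have h5 : cr G.Adj (fun x => decide ((G.deleteEdges {s(v, w)}).Reachable v x)) ≤ 1 := by
      unfold cr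
      rw [Finite.card_le_one_iff_subsingleton]
      have key : ∀ p : {p : W × W // decide ((G.deleteEdges {s(v, w)}).Reachable v p.1) = true ∧
          decide ((G.deleteEdges {s(v, w)}).Reachable v p.2) = false ∧ G.Adj p.1 p.2},
          p.1 = (v, w) := by
        rintro ⟨⟨x, y⟩, h1, h2, h3⟩
        have h1' := of_decide_eq_true h1
        have h2' := of_decide_eq_false h2
        by_contra hne
        have hnD : s(x, y) ∈ ({s(v, w)} : Set (Sym2 W)) := by
          by_contra hnD
          exact h2' (h1'.trans (SimpleGraph.Adj.reachable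
            (SimpleGraph.deleteEdges_adj.mpr ⟨h3, hnD⟩)))
        rw [Set.mem_singleton_iff, Sym2.eq_iff] at hnD
        rcases hnD with ⟨rfl, rfl⟩ | ⟨rfl, rfl⟩
        · exact hne rfl
        · exact h2' (SimpleGraph.Reachable.refl _)
      exact ⟨fun p q => Subtype.ext ((key p).trans (key q).symm)⟩
    omega
  obtain ⟨u, p, hp, hm⟩ :=
    (SimpleGraph.adj_and_reachable_delete_edges_iff_exists_cycle (G := G)).mp ⟨hvw, hr⟩
  refine ⟨p.toSubgraph, ⟨p.toSubgraph_connected, ?_⟩, ?_⟩
  · intro x hx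
    rw [hp.ncard_neighborSet_toSubgraph_eq_two (p.mem_verts_toSubgraph.mp hx)]
    exact even_two
  · rw [SimpleGraph.Walk.mem_edges_toSubgraph]
    exact hm

/-- a graph without bridges has a cycle cover -/
theorem exists_cover (h : ∀ S : W → Bool, (∃ x, S x = true) → (∃ x, S x = false) →
    2 ≤ cr G.Adj S) : ∃ (k : ℕ) (C : Fin k → G.Subgraph), IsCycleCover G C := by
  classical
  choose H hH1 hH2 using exists_cyc h
  have hf : Finite G.edgeSet := inferInstance
  refine ⟨Nat.card G.edgeSet, fun i => H ((Finite.equivFin G.edgeSet).symm i).1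
    ((Finite.equivFin G.edgeSet).symm i).2, fun i => hH1 _ _, fun e he => ?_⟩
  refine ⟨Finite.equivFin G.edgeSet ⟨e, he⟩, ?_⟩
  have key : ∀ z : G.edgeSet, z = ⟨e, he⟩ → e ∈ (H z.1 z.2).edgeSet := by
    rintro z rfl
    exact hH2 e he
  exact key _ (Equiv.symm_apply_apply _ _)

end exist

section length

variable {W : Type} [Fintype W] [DecidableEq W] {G : SimpleGraph W} {k : ℕ}
  {C : Fin k → G.Subgraph}

/-- the edge sets of a family of subgraphs -/
noncomputable def Es (C : Fin k → G.Subgraph) : Fin k → Finset (Sym2 W) := fun i =>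
  (Set.toFinite (C i).edgeSet).toFinset

theorem Es_sub (i : Fin k) (e : Sym2 W) (he : e ∈ Es C i) : e ∈ G.edgeSet := by
  rw [Es, Set.Finite.mem_toFinset] at he
  exact (C i).edgeSet_subset he

theorem Es_even (hC : IsCycleCover G C) (i : Fin k) (v : W) :
    Even ((Es C i).filter (fun e => v ∈ e)).card := by
  have h1 : ((Es C i).filter (fun e => v ∈ e)).card = ((C i).neighborSet v).ncard := by
    rw [← Nat.card_coe_set_eq, ← Fintype.card_coe, ← Nat.card_eq_fintype_card]
    symm
    refine Nat.card_congr (Equiv.ofBijective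
      (fun y => ⟨s(v, y.1), Finset.mem_filter.mpr ⟨?_, Sym2.mem_mk_left _ _⟩⟩) ⟨?_, ?_⟩)
    · rw [Es, Set.Finite.mem_toFinset]
      exact y.2
    · rintro ⟨y, hy⟩ ⟨z, hz⟩ h
      simp only [Subtype.mk.injEq] at h
      exact Subtype.ext (Sym2.congr_right.mp h)
    · rintro ⟨e, he⟩
      rw [Finset.mem_filter] at he
      obtain ⟨he1, he2⟩ := he
      obtain ⟨y, rfl⟩ := Sym2.mem_iff_exists.mp he2
      rw [Es, Set.Finite.mem_toFinset] at he1
      exact ⟨⟨y, he1⟩, rfl⟩
  rw [h1]
  by_cases hv : v ∈ (C i).verts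
  · exact (hC.1 i).2 v hv
  · have : (C i).neighborSet v = ∅ := by
      ext y
      simp only [Set.mem_empty_iff_false, iff_false]
      intro hy
      exact hv ((C i).edge_vert hy)
    rw [this, Set.ncard_empty]
    exact Even.zero

theorem Es_cov (hC : IsCycleCover G C) (e : Sym2 W) (he : e ∈ G.edgeSet) : ∃ i, e ∈ Es C i := by
  obtain ⟨i, hi⟩ := hC.2 e he
  exact ⟨i, by rw [Es, Set.Finite.mem_toFinset]; exact hi⟩

theorem len_eq : len C = ∑ i, (Es C i).card := by
  unfold len
  refine Finset.sum_congr rfl fun i _ => ?_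
  rw [Es, Set.ncard_eq_toFinset_card _ (Set.toFinite _)]

/-- the number of edges of a cubic graph -/
theorem edges_eq (hdeg : ∀ v, Nat.card {w // G.Adj v w} = 3) :
    2 * G.edgeSet.ncard = 3 * Fintype.card W := by
  classical
  have hreg : ∀ v, G.degree v = 3 := by
    intro v
    rw [← SimpleGraph.card_neighborSet_eq_degree, ← Nat.card_eq_fintype_card]
    exact hdeg v
  have h1 : G.edgeSet.ncard = G.edgeFinset.card := by
    rw [← SimpleGraph.coe_edgeFinset, Set.ncard_coe_finset]
  rw [h1, ← G.sum_degrees_eq_twice_card_edges, Finset.sum_congr rfl fun v _ => hreg v,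
    Finset.sum_const, Finset.card_univ, smul_eq_mul, mul_comm]

end length

end Run7.h236.Dce
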