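import Pool.Agent.Run7.h236.Scc.D2

set_option autoImplicit false

/-! # The members of the family -/

namespace Run7.h236.Dce

open Run7.h236.Scc Sum

variable {V : Type} [Finite V] {A : V → V → Prop} {t : Fin 4 → V}

theorem GC_isSnark {n : ℕ} (hn : 1 ≤ n) (hG : Good A t) (hN : NX A t n) :
    IsSnark (GC A t hG) where
  cubic := by
    intro v
    rw [← Nat.card_coe_set_eq]
    exact GC_deg hG v
  cyclic := fun D _ hD u v c d hc hd => cyclic_of (GC A t hG) (connC hG) D hD u v c d hc hd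
  girth := girth_of (GC A t hG)
    (tri_comp TOK_C hG.tinj hG.symm hG.irrefl hG.hp hG.tri)
    (quad_comp TOK_C hG.tinj hG.symm hG.irrefl hG.hp hG.h01 hG.h23 hG.quad)
  uncolourable := by
    intro hf
    refine no_colouring (G := GC A t hG) (n := n) (t := fun p => p.elim0) (GC_deg hG) hn ?_
      (col_of _ hf)
    intro L M hc
    exact NX_C hG hN hc

theorem GC_index {n : ℕ} (hn : 1 ≤ n) (hG : Good A t) (hN : NX A t n) (k : ℕ)
    (F : Finset (Set (Sym2 (Fin 2 ⊕ (Fin 1 × V))))) (hF : IsKCover (GC A t hG) k F) : 5 ≤ k := by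
  have : Nonempty (Fin 2 ⊕ (Fin 1 × V)) := ⟨inl 0⟩
  refine no_cover (G := GC A t hG) (GC_deg hG) hn (t := fun p => p.elim0) ?_ k F hF
  intro L M hc
  exact NX_C hG hN hc

theorem GC_nb0 (hG : Good A t) (v : Fin 2 ⊕ (Fin 1 × V)) :
    (GC A t hG).Adj (inl 0) v ↔ v = inl 1 ∨ v = inr (0, t 0) ∨ v = inr (0, t 1) := by
  have key : ∀ b, TAdj eC (inl 0) b ↔ b = inl 1 ∨ b = inr (0, 0) ∨ b = inr (0, 1) := by decide
  constructor
  · intro h
    obtain ⟨b, hb, rfl⟩ := (comp_inl 0 v).mp h
    rcases (key b).mp hb with rfl | rfl | rfl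
    · exact Or.inl rfl
    · exact Or.inr (Or.inl rfl)
    · exact Or.inr (Or.inr rfl)
  · rintro (rfl | rfl | rfl)
    · exact (comp_inl 0 _).mpr ⟨inl 1, (key _).mpr (Or.inl rfl), rfl⟩
    · exact (comp_inl 0 _).mpr ⟨inr (0, 0), (key _).mpr (Or.inr (Or.inl rfl)), rfl⟩
    · exact (comp_inl 0 _).mpr ⟨inr (0, 1), (key _).mpr (Or.inr (Or.inr rfl)), rfl⟩

theorem GC_nb1 (hG : Good A t) (v : Fin 2 ⊕ (Fin 1 × V)) :
    (GC A t hG).Adj (inl 1) v ↔ v = inl 0 ∨ v = inr (0, t 2) ∨ v = inr (0, t 3) := by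
  have key : ∀ b, TAdj eC (inl 1) b ↔ b = inl 0 ∨ b = inr (0, 2) ∨ b = inr (0, 3) := by decide
  constructor
  · intro h
    obtain ⟨b, hb, rfl⟩ := (comp_inl 1 v).mp h
    rcases (key b).mp hb with rfl | rfl | rfl
    · exact Or.inl rfl
    · exact Or.inr (Or.inl rfl)
    · exact Or.inr (Or.inr rfl)
  · rintro (rfl | rfl | rfl)
    · exact (comp_inl 1 _).mpr ⟨inl 0, (key _).mpr (Or.inl rfl), rfl⟩
    · exact (comp_inl 1 _).mpr ⟨inr (0, 2), (key _).mpr (Or.inr (Or.inl rfl)), rfl⟩
    · exact (comp_inl 1 _).mpr ⟨inr (0, 3), (key _).mpr (Or.inr (Or.inr rfl)), rfl⟩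

theorem GC_rr (hG : Good A t) (v w : V) :
    (GC A t hG).Adj (inr (0, v)) (inr (0, w)) ↔ A v w := by
  constructor
  · intro h
    rcases comp_rr h with ⟨-, h⟩ | ⟨p, q, -, -, h⟩
    · exact h
    · exact absurd h (TOK_C.noself 0 p q)
  · intro h
    exact Or.inl ⟨0, v, w, rfl, rfl, h⟩

/-- the neighbours of `x i` other than `y i` -/
def nX (t : Fin 4 → V) : Fin 2 → Fin 2 ⊕ (Fin 1 × V) := ![inr (0, t 0), inr (0, t 1)]

/-- the neighbours of `y i` other than `x i` -/
def nY (t : Fin 4 → V) : Fin 2 → Fin 2 ⊕ (Fin 1 × V) := ![inr (0, t 2), inr (0, t 3)]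

theorem nx_ne (D : Data) (i : Fin 3) (k : Fin 2) :
    D.nx i k ≠ D.x i ∧ D.nx i k ≠ D.y i := by
  have h : D.nx i k ∈ Set.range (D.nx i) := ⟨k, rfl⟩
  rw [D.nx_range i] at h
  exact ⟨(h.1 : (D.G i).Adj (D.x i) (D.nx i k)).ne', h.2⟩

theorem ny_ne (D : Data) (i : Fin 3) (k : Fin 2) :
    D.ny i k ≠ D.x i ∧ D.ny i k ≠ D.y i := by
  have h : D.ny i k ∈ Set.range (D.ny i) := ⟨k, rfl⟩
  rw [D.ny_range i] at h
  exact ⟨h.2, (h.1 : (D.G i).Adj (D.y i) (D.ny i k)).ne'⟩

/-- the data of the construction from three copies of the closed composite -/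
def mkD {n : ℕ} (hn : 1 ≤ n) (hG : Good A t) (hN : NX A t n) : Data where
  V := fun _ => Fin 2 ⊕ (Fin 1 × V)
  fin := fun _ => inferInstance
  G := fun _ => GC A t hG
  snark := fun _ => GC_isSnark hn hG hN
  index := fun _ => GC_index hn hG hN
  x := fun _ => inl 0
  y := fun _ => inl 1
  adj := fun _ => (GC_nb0 hG _).mpr (Or.inl rfl)
  nx := fun _ => nX t
  ny := fun _ => nY t
  nx_inj := by
    intro _ a b h
    fin_cases a <;> fin_cases b
    · rfl
    · exact absurd (hG.tinj (congrArg Prod.snd (Sum.inr.inj h))) (by decide)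
    · exact absurd (hG.tinj (congrArg Prod.snd (Sum.inr.inj h))) (by decide)
    · rfl
  ny_inj := by
    intro _ a b h
    fin_cases a <;> fin_cases b
    · rfl
    · exact absurd (hG.tinj (congrArg Prod.snd (Sum.inr.inj h))) (by decide)
    · exact absurd (hG.tinj (congrArg Prod.snd (Sum.inr.inj h))) (by decide)
    · rfl
  nx_range := by
    intro _
    ext v
    constructor
    · rintro ⟨k, rfl⟩
      fin_cases k
      · exact ⟨(GC_nb0 hG _).mpr (Or.inr (Or.inl rfl)), by simp [nX]⟩
      · exact ⟨(GC_nb0 hG _).mpr (Or.inr (Or.inr rfl)), by simp [nX]⟩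
    · rintro ⟨h1, h2⟩
      rcases (GC_nb0 hG _).mp h1 with rfl | rfl | rfl
      · exact absurd rfl h2
      · exact ⟨0, rfl⟩
      · exact ⟨1, rfl⟩
  ny_range := by
    intro _
    ext v
    constructor
    · rintro ⟨k, rfl⟩
      fin_cases k
      · exact ⟨(GC_nb1 hG _).mpr (Or.inr (Or.inl rfl)), by simp [nY]⟩
      · exact ⟨(GC_nb1 hG _).mpr (Or.inr (Or.inr rfl)), by simp [nY]⟩
    · rintro ⟨h1, h2⟩
      rcases (GC_nb1 hG _).mp h1 with rfl | rfl | rfl
      · exact absurd rfl h2
      · exact ⟨0, rfl⟩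
      · exact ⟨1, rfl⟩

section iso

variable {n : ℕ} (hn : 1 ≤ n) (hG : Good A t) (hN : NX A t n)

/-- the vertices of `H i` -/
def old (j : Fin 3) (v : V) : Vert (mkD hn hG hN) := .h j (inr (0, v)) ⟨nofun, nofun⟩

/-- the real vertices -/
def new : Fin 10 → Vert (mkD hn hG hN) := ![.a 0, .a 1, .a 2, .b 0, .b 1, .b 2, .c 0, .c 1, .c 2, .u]

/-- the bijection from the composite -/
def psi : Fin 10 ⊕ (Fin 3 × V) → Vert (mkD hn hG hN)
  | inl i => new hn hG hN i
  | inr (j, v) => old hn hG hN j v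

theorem new_inj : Function.Injective (new hn hG hN) := by
  intro i j h
  fin_cases i <;> fin_cases j <;> first | rfl | (exfalso; simp [new] at h)

theorem psi_bij : Function.Bijective (psi hn hG hN) := by
  constructor
  · rintro (i | ⟨j, v⟩) (i' | ⟨j', v'⟩) h
    · exact congrArg inl (new_inj hn hG hN h)
    · exfalso
      change new hn hG hN i = old hn hG hN j' v' at h
      fin_cases i <;> simp [new, old] at h
    · exfalso
      change old hn hG hN j v = new hn hG hN i' at h
      fin_cases i' <;> simp [new, old] at h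
    · change old hn hG hN j v = old hn hG hN j' v' at h
      unfold old at h
      injection h with h1 h2
      subst h1
      have h4 : v = v' := congrArg Prod.snd (Sum.inr.inj h2)
      rw [h4]
  · rintro (⟨j, v, hv⟩ | i | i | i | _)
    · rcases v with i | ⟨k, v⟩
      · exfalso
        fin_cases i
        · exact hv.1 rfl
        · exact hv.2 rfl
      · obtain rfl : k = 0 := Subsingleton.elim k 0
        exact ⟨inr (j, v), rfl⟩
    · fin_cases i
      · exact ⟨inl 0, rfl⟩
      · exact ⟨inl 1, rfl⟩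
      · exact ⟨inl 2, rfl⟩
    · fin_cases i
      · exact ⟨inl 3, rfl⟩
      · exact ⟨inl 4, rfl⟩
      · exact ⟨inl 5, rfl⟩
    · fin_cases i
      · exact ⟨inl 6, rfl⟩
      · exact ⟨inl 7, rfl⟩
      · exact ⟨inl 8, rfl⟩
    · exact ⟨inl 9, rfl⟩

theorem rel_e (k : Fin 21) : Rel (mkD hn hG hN) (psi hn hG hN (tau t (eV k).1))
    (psi hn hG hN (tau t (eV k).2)) := by
  fin_cases k
  · exact Rel.ax 0 (nx_ne (mkD hn hG hN) _ _)
  · exact Rel.ay 0 (ny_ne (mkD hn hG hN) _ _)
  · exact Rel.bx 0 (nx_ne (mkD hn hG hN) _ _)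
  · exact Rel.by' 0 (ny_ne (mkD hn hG hN) _ _)
  · exact Rel.ca 0
  · exact Rel.cb 0
  · exact Rel.cu 0
  · exact Rel.ax 1 (nx_ne (mkD hn hG hN) _ _)
  · exact Rel.ay 1 (ny_ne (mkD hn hG hN) _ _)
  · exact Rel.bx 1 (nx_ne (mkD hn hG hN) _ _)
  · exact Rel.by' 1 (ny_ne (mkD hn hG hN) _ _)
  · exact Rel.ca 1
  · exact Rel.cb 1
  · exact Rel.cu 1
  · exact Rel.ax 2 (nx_ne (mkD hn hG hN) _ _)
  · exact Rel.ay 2 (ny_ne (mkD hn hG hN) _ _)
  · exact Rel.bx 2 (nx_ne (mkD hn hG hN) _ _)
  · exact Rel.by' 2 (ny_ne (mkD hn hG hN) _ _)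
  · exact Rel.ca 2
  · exact Rel.cb 2
  · exact Rel.cu 2

theorem adj_psi (x y : Fin 10 ⊕ (Fin 3 × V)) :
    AV A t x y ↔ (graph (mkD hn hG hN)).Adj (psi hn hG hN x) (psi hn hG hN y) := by
  have hsy := comp_symm (R := Fin 10) (B := Fin 3) (t := t) (e := eV) hG.symm
  have hir := comp_irrefl (R := Fin 10) (B := Fin 3) (t := t) (e := eV) hG.tinj hG.irrefl
    TOK_V.noself TOK_V.noloop
  have he : ∀ k, AV A t (tau t (eV k).1) (tau t (eV k).2) := fun k =>
    Or.inr ⟨_, _, ⟨k, Or.inl rfl⟩, rfl, rfl⟩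
  constructor
  · intro h
    have hne : x ≠ y := by
      rintro rfl
      exact hir x h
    refine ⟨fun h' => hne ((psi_bij hn hG hN).1 h'), ?_⟩
    rcases h with ⟨j, v, w, rfl, rfl, h⟩ | ⟨a, b, ⟨k, h | h⟩, rfl, rfl⟩
    · exact Or.inl (Rel.h j _ _ _ _ ((GC_rr hG v w).mpr h))
    · left
      have := rel_e hn hG hN k
      rw [h] at this
      exact this
    · right
      have := rel_e hn hG hN k
      rw [h] at this
      exact this
  · rintro ⟨hne, h⟩
    have key : ∀ u v, Rel (mkD hn hG hN) u v → ∀ x y, psi hn hG hN x = u → psi hn hG hN y = v →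
        AV A t x y := by
      have inj : ∀ {x x' y y'}, AV A t x' y' → psi hn hG hN x = psi hn hG hN x' →
          psi hn hG hN y = psi hn hG hN y' → AV A t x y := by
        intro x x' y y' h h1 h2
        rw [(psi_bij hn hG hN).1 h1, (psi_bij hn hG hN).1 h2]
        exact h
      intro u v h
      cases h with
      | h i v w hv hw h =>
        intro x y hx hy
        rcases v with l | ⟨k, v⟩
        · exfalso
          fin_cases l
          · exact hv.1 rfl
          · exact hv.2 rfl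
        rcases w with l | ⟨k', w⟩
        · exfalso
          fin_cases l
          · exact hw.1 rfl
          · exact hw.2 rfl
        obtain rfl : k = 0 := Subsingleton.elim k 0
        obtain rfl : k' = 0 := Subsingleton.elim k' 0
        exact inj (x' := inr (i, v)) (y' := inr (i, w)) (Or.inl ⟨i, v, w, rfl, rfl,
          (GC_rr hG v w).mp h⟩) hx hy
      | ax i h =>
        intro x y hx hy
        fin_cases i
        · exact inj (he 0) hx hy
        · exact inj (he 7) hx hy
        · exact inj (he 14) hx hy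
      | ay i h =>
        intro x y hx hy
        fin_cases i
        · exact inj (he 1) hx hy
        · exact inj (he 8) hx hy
        · exact inj (he 15) hx hy
      | bx i h =>
        intro x y hx hy
        fin_cases i
        · exact inj (he 2) hx hy
        · exact inj (he 9) hx hy
        · exact inj (he 16) hx hy
      | by' i h =>
        intro x y hx hy
        fin_cases i
        · exact inj (he 3) hx hy
        · exact inj (he 10) hx hy
        · exact inj (he 17) hx hy
      | ca i =>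
        intro x y hx hy
        fin_cases i
        · exact inj (he 4) hx hy
        · exact inj (he 11) hx hy
        · exact inj (he 18) hx hy
      | cb i =>
        intro x y hx hy
        fin_cases i
        · exact inj (he 5) hx hy
        · exact inj (he 12) hx hy
        · exact inj (he 19) hx hy
      | cu i =>
        intro x y hx hy
        fin_cases i
        · exact inj (he 6) hx hy
        · exact inj (he 13) hx hy
        · exact inj (he 20) hx hy
    rcases h with h | h
    · exact key _ _ h x y rfl rfl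
    · exact hsy _ _ (key _ _ h y x rfl rfl)

end iso

end Run7.h236.Dce
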