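import Pool.Agent.Run7.h236.Scc.D3

set_option autoImplicit false

/-! # The excess of shortest cycle covers is unbounded on the family -/

namespace Run7.h236.Dce

open Run7.h236.Scc Sum

section transport

variable {X W ι : Type} [Finite X] [Finite W] {ψ : X → W} {AX : X → X → Prop}
  {AW' : W → W → Prop} {s : Fin 0 → X} {s' : Fin 0 → W} {L : W → W → Finset ι}
  {M : Fin 0 → Finset ι}

theorem tr_card (hψ : Function.Bijective ψ) (h : ∀ x y, AX x y ↔ AW' (ψ x) (ψ y)) (x : X)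
    (Q : W → Prop) : Nat.card {y // AX x y ∧ Q (ψ y)} = Nat.card {w // AW' (ψ x) w ∧ Q w} := by
  refine Nat.card_congr (Equiv.ofBijective
    (fun y => ⟨ψ y.1, (h _ _).mp y.2.1, y.2.2⟩) ⟨?_, ?_⟩)
  · rintro ⟨y, hy⟩ ⟨z, hz⟩ he
    simp only [Subtype.mk.injEq] at he
    exact Subtype.ext (hψ.1 he)
  · rintro ⟨w, hw⟩
    obtain ⟨y, rfl⟩ := hψ.2 w
    exact ⟨⟨y, (h _ _).mpr hw.1, hw.2⟩, rfl⟩

theorem tr_deg (hψ : Function.Bijective ψ) (h : ∀ x y, AX x y ↔ AW' (ψ x) (ψ y))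
    (hd : ∀ x, Nat.card {y // AX x y} = 3) (w : W) : Nat.card {z // AW' w z} = 3 := by
  obtain ⟨x, rfl⟩ := hψ.2 w
  have h1 := tr_card hψ h x (fun _ => True)
  simp only [and_true] at h1
  rw [← h1]
  exact hd x

theorem tr_cov (hψ : Function.Bijective ψ) (h : ∀ x y, AX x y ↔ AW' (ψ x) (ψ y))
    (hc : Cov AW' s' L M) : Cov AX s (fun x y => L (ψ x) (ψ y)) M where
  symm := fun x y hxy => hc.symm _ _ ((h x y).mp hxy)
  ne := fun x y hxy => hc.ne _ _ ((h x y).mp hxy)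
  neM := fun p => p.elim0
  even := by
    intro x i
    have h1 := hc.even (ψ x) i
    unfold cnt at h1 ⊢
    rw [card_none (fun p => s' p = ψ x ∧ i ∈ M p) (fun p => p.elim0), add_zero] at h1
    rw [card_none (fun p => s p = x ∧ i ∈ M p) (fun p => p.elim0), add_zero,
      tr_card hψ h x (fun w => i ∈ L (ψ x) w)]
    exact h1

theorem tr_ex (hψ : Function.Bijective ψ) (h : ∀ x y, AX x y ↔ AW' (ψ x) (ψ y)) :
    Nat.card {x // ¬ Ex AX s (fun x y => L (ψ x) (ψ y)) M x} ≤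
      Nat.card {w // ¬ Ex AW' s' L M w} := by
  refine Nat.card_le_card_of_injective (fun x => ⟨ψ x.1, fun hE => x.2 ?_⟩) ?_
  · obtain ⟨a, b, h1, -⟩ := hE
    exact ⟨a, b, fun y hy i hi => h1 _ ((h _ _).mp hy) i hi, fun p => p.elim0⟩
  · rintro ⟨y, hy⟩ ⟨z, hz⟩ he
    simp only [Subtype.mk.injEq] at he
    exact Subtype.ext (hψ.1 he)

theorem tr_cr (hψ : Function.Bijective ψ) (h : ∀ x y, AX x y ↔ AW' (ψ x) (ψ y)) (S : W → Bool) :
    cr AX (fun x => S (ψ x)) ≤ cr AW' S := by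
  unfold cr
  refine Nat.card_le_card_of_injective
    (fun p => ⟨(ψ p.1.1, ψ p.1.2), p.2.1, p.2.2.1, (h _ _).mp p.2.2.2⟩) ?_
  rintro ⟨⟨a, b⟩, h1⟩ ⟨⟨c, d⟩, h2⟩ he
  simp only [Subtype.mk.injEq, Prod.mk.injEq] at he
  exact Subtype.ext (Prod.ext (hψ.1 he.1) (hψ.1 he.2))

end transport

theorem final (c : ℕ) : ∃ D : Data,
    (4 / 3 : ℝ) * ((graph D).edgeSet.ncard : ℝ) + (c : ℝ) ≤ (scc (graph D) : ℝ) := by
  classical
  obtain ⟨V, hV, A, t, hG, hN, -⟩ := exists_pole c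
  have hn : 1 ≤ 3 ^ c := Nat.one_le_pow _ _ (by norm_num)
  refine ⟨mkD hn hG hN, ?_⟩
  have hψ := psi_bij hn hG hN
  have hadj := adj_psi hn hG hN
  have hfW : Finite (Vert (mkD hn hG hN)) := Finite.of_surjective _ hψ.2
  have hft : Fintype (Vert (mkD hn hG hN)) := Fintype.ofFinite _
  have hdeg : ∀ v, Nat.card {w // (graph (mkD hn hG hN)).Adj v w} = 3 :=
    tr_deg hψ hadj (AV_deg hG)
  have hE := edges_eq hdeg
  -- the bound for all covers
  have hbd : ∀ (k : ℕ) (C : Fin k → (graph (mkD hn hG hN)).Subgraph),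
      IsCycleCover (graph (mkD hn hG hN)) C →
      4 * (graph (mkD hn hG hN)).edgeSet.ncard + 3 * c ≤ 3 * len C := by
    intro k C hC
    have h1 := cover_len (t := fun p => p.elim0) (M := fun p => p.elim0) (C := Es C)
      (G := graph (mkD hn hG hN)) Es_sub (Es_even hC) (Es_cov hC) hdeg
    have h2 := cov_Lc (t := fun p => p.elim0) (M := fun p => p.elim0) (C := Es C)
      (G := graph (mkD hn hG hN)) Es_sub (Es_even hC) (Es_cov hC)
    have h3 := NX_V hG hN (tr_cov (s := fun p => p.elim0) hψ hadj h2)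
    have h4 := h3.trans (tr_ex (s' := fun p => p.elim0) hψ hadj)
    rw [← len_eq] at h1
    have h5 : c < 3 ^ c := Nat.lt_pow_self (by norm_num)
    omega
  -- the minimum is attained
  have hne : {l | ∃ (k : ℕ) (C : Fin k → (graph (mkD hn hG hN)).Subgraph),
      IsCycleCover (graph (mkD hn hG hN)) C ∧ len C = l}.Nonempty := by
    obtain ⟨k, C, hC⟩ := exists_cover (G := graph (mkD hn hG hN)) (by
      intro S h1 h2
      obtain ⟨x, hx⟩ := h1
      obtain ⟨y, hy⟩ := h2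
      obtain ⟨x, rfl⟩ := hψ.2 x
      obtain ⟨y, rfl⟩ := hψ.2 y
      exact (conn1_V hG (fun x => S (psi hn hG hN x)) ⟨x, hx⟩ ⟨y, hy⟩).trans (tr_cr hψ hadj S))
    exact ⟨len C, k, C, hC, rfl⟩
  obtain ⟨k, C, hC, hl⟩ := Nat.sInf_mem hne
  have h6 := hbd k C hC
  have h7 : scc (graph (mkD hn hG hN)) = len C := hl.symm
  rw [h7]
  have h8 : (4 : ℝ) * ((graph (mkD hn hG hN)).edgeSet.ncard : ℝ) + 3 * (c : ℝ) ≤
      3 * (len C : ℝ) := by exact_mod_cast h6
  linarith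

end Run7.h236.Dce
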